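import Pool.Agent.H94.DS.Defs

/-!
# The digraph of a regular graph of degree `k` with `2 k + 1` vertices
-/

set_option autoImplicit false

namespace Pool.Agent.H94.DS

variable {V W : Type*}

/-- The digraph on two copies of `V`: there are arcs from both copies of `i` to the first copy of
each neighbour of `i`, and to the second copy of each vertex which is neither equal nor adjacent to
`i`. -/
def dbl (A : SimpleGraph V) : Digraph (Bool × V) where
  Adj x y := if y.1 = false then A.Adj x.2 y.2 else x.2 ≠ y.2 ∧ ¬ A.Adj x.2 y.2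

theorem dbl_false (A : SimpleGraph V) (x : Bool × V) (j : V) :
    (dbl A).Adj x (false, j) ↔ A.Adj x.2 j := by simp [dbl]

theorem dbl_true (A : SimpleGraph V) (x : Bool × V) (j : V) :
    (dbl A).Adj x (true, j) ↔ x.2 ≠ j ∧ ¬ A.Adj x.2 j := by simp [dbl]

theorem dbl_iff (A : SimpleGraph V) (x y : Bool × V) : (dbl A).Adj x y ↔
    (y.1 = false ∧ A.Adj x.2 y.2) ∨ (y.1 = true ∧ x.2 ≠ y.2 ∧ ¬ A.Adj x.2 y.2) := by
  obtain ⟨a, i⟩ := x
  obtain ⟨b, j⟩ := y
  cases b <;> simp [dbl]

theorem dbl_out (A : SimpleGraph V) (x y : Bool × V) :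
    (∀ w, (dbl A).Adj x w ↔ (dbl A).Adj y w) ↔ x.2 = y.2 := by
  constructor
  · intro h
    by_contra hne
    by_cases hA : A.Adj x.2 y.2
    · have h1 := h (false, y.2)
      rw [dbl_false, dbl_false] at h1
      exact (h1.1 hA).ne rfl
    · have h1 := h (true, y.2)
      rw [dbl_true, dbl_true] at h1
      exact (h1.1 ⟨hne, hA⟩).1 rfl
  · intro h w
    rw [dbl_iff, dbl_iff, h]

theorem rel_out {α β : Type*} {r : α → α → Prop} {s : β → β → Prop} (θ : r ≃r s) (x y : α) :
    (∀ w, r x w ↔ r y w) ↔ (∀ w, s (θ x) w ↔ s (θ y) w) := by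
  constructor
  · intro h w
    obtain ⟨w, rfl⟩ := θ.surjective w
    rw [θ.map_rel_iff, θ.map_rel_iff, h]
  · intro h w
    rw [← θ.map_rel_iff, ← θ.map_rel_iff (a := y), h]

/-- If the digraphs are isomorphic then the graphs are isomorphic, or one graph is isomorphic to the
complement of the other one. -/
theorem dbl_iso {A : SimpleGraph V} {B : SimpleGraph W} (θ : (dbl A).Adj ≃r (dbl B).Adj) :
    Nonempty (A ≃g B) ∨ Nonempty (A ≃g Bᶜ) := by
  have h1 : ∀ x y, x.2 = y.2 ↔ (θ x).2 = (θ y).2 := fun x y => by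
    rw [← dbl_out A, ← dbl_out B, rel_out θ]
  have hbij : Function.Bijective (fun i => (θ (false, i)).2) := by
    constructor
    · intro i j hij
      exact (h1 (false, i) (false, j)).2 hij
    · intro w
      refine ⟨(θ.symm (false, w)).2, ?_⟩
      have h2 := (h1 (false, (θ.symm (false, w)).2) (θ.symm (false, w))).1 rfl
      simpa using h2
  obtain ⟨σ, hσ⟩ : ∃ σ : V ≃ W, ∀ a i, (θ (a, i)).2 = σ i :=
    ⟨Equiv.ofBijective _ hbij, fun a i => (h1 (a, i) (false, i)).1 rfl⟩
  have h2 : ∀ i j, A.Adj i j ↔ ((θ (false, j)).1 = false ∧ B.Adj (σ i) (σ j)) ∨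
      ((θ (false, j)).1 = true ∧ σ i ≠ σ j ∧ ¬ B.Adj (σ i) (σ j)) := fun i j => by
    rw [← dbl_false A (false, i), ← θ.map_rel_iff, dbl_iff, hσ, hσ]
  by_cases hc : ∀ j, (θ (false, j)).1 = false
  · left
    exact ⟨⟨σ, fun {i j} => by rw [h2 i j]; simp [hc j]⟩⟩
  · right
    push Not at hc
    obtain ⟨j0, hj0⟩ := hc
    have hj0 : (θ (false, j0)).1 = true := by simpa using hj0
    have hc : ∀ j, (θ (false, j)).1 = true := by
      intro j
      by_contra hj
      have hj : (θ (false, j)).1 = false := by simpa using hj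
      have hne : j ≠ j0 := by
        rintro rfl
        rw [hj] at hj0
        exact absurd hj0 (by simp)
      have e1 := h2 j j0
      have e2 := h2 j0 j
      rw [hj0] at e1
      rw [hj] at e2
      have hn : σ j ≠ σ j0 := fun h => hne (σ.injective h)
      rw [A.adj_comm, B.adj_comm] at e2
      simp [hn] at e1 e2
      tauto
    refine ⟨⟨σ, fun {i j} => ?_⟩⟩
    rw [h2 i j, SimpleGraph.compl_adj]
    simp [hc j]

/-- Isomorphic graphs have isomorphic digraphs. -/
theorem dbl_map {A : SimpleGraph V} {B : SimpleGraph W} (φ : A ≃g B) :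
    Nonempty ((dbl A).Adj ≃r (dbl B).Adj) := by
  refine ⟨⟨Equiv.prodCongr (Equiv.refl _) φ.toEquiv, fun {x y} => ?_⟩⟩
  rw [dbl_iff, dbl_iff]
  have h1 : ∀ i j, B.Adj (φ i) (φ j) ↔ A.Adj i j := fun i j => φ.map_rel_iff
  have h2 : ∀ i j, φ i = φ j ↔ i = j := fun i j => φ.injective.eq_iff
  simp [h1, h2]

section Count

open Finset

/-- The indicator of a proposition. -/
noncomputable def ind (p : Prop) : ℕ := open Classical in if p then 1 else 0

theorem ind_pos {p : Prop} (h : p) : ind p = 1 := if_pos h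

theorem ind_neg {p : Prop} (h : ¬ p) : ind p = 0 := if_neg h

theorem ind_congr {p q : Prop} (h : p ↔ q) : ind p = ind q := by
  have : p = q := propext h
  rw [this]

@[simp] theorem ind_true : ind True = 1 := ind_pos trivial

@[simp] theorem ind_false : ind False = 0 := ind_neg (fun h => h)

variable [Fintype V]

theorem ncard_setOf {α : Type*} [Fintype α] (p : α → Prop) :
    {x | p x}.ncard = ∑ x, ind (p x) := by
  classical
  unfold ind
  rw [← Finset.card_filter, Set.ncard_eq_toFinset_card']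
  congr 1
  ext x
  simp

theorem sum_ind_eq (i : V) : ∑ j, ind (i = j) = 1 := by
  classical
  unfold ind
  simp

theorem sum_ind_eq' (i : V) : ∑ j, ind (j = i) = 1 := by
  classical
  unfold ind
  simp

/-- the number of vertices which are neither `i` nor adjacent to `i` -/
theorem card_split (A : SimpleGraph V) (i : V) :
    (∑ j, ind (A.Adj i j)) + (∑ j, ind (i ≠ j ∧ ¬ A.Adj i j)) + 1 = Fintype.card V := by
  rw [← sum_ind_eq i, ← Finset.sum_add_distrib, ← Finset.sum_add_distrib, ← Finset.card_univ,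
    Finset.card_eq_sum_ones]
  refine Finset.sum_congr rfl fun j _ => ?_
  by_cases h1 : i = j
  · subst h1
    simp
  · by_cases h2 : A.Adj i j <;> simp [h1, h2]

/-- The digraph of a regular graph of degree `k` with `2 k + 1` vertices is a directed strongly
regular graph. -/
theorem dbl_dsrg {A : SimpleGraph V} {k : ℕ} (hV : Fintype.card V = 2 * k + 1)
    (hA : ∀ i, (∑ j, ind (A.Adj i j)) = k) :
    IsDSRG (dbl A) (4 * k + 2) (2 * k) k (k - 1) k := by
  have hB : ∀ i, (∑ j, ind (i ≠ j ∧ ¬ A.Adj i j)) = k := fun i => by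
    have := card_split A i
    rw [hA, hV] at this
    omega
  have hA' : ∀ j, (∑ i, ind (A.Adj i j)) = k := fun j => by
    rw [← hA j]
    exact Finset.sum_congr rfl fun i _ => ind_congr (A.adj_comm _ _)
  have hB' : ∀ j, (∑ i, ind (i ≠ j ∧ ¬ A.Adj i j)) = k := fun j => by
    rw [← hB j]
    exact Finset.sum_congr rfl fun i _ => ind_congr (by rw [A.adj_comm, ne_comm])
  -- the paths of length two
  have hP : ∀ x y, {z | (dbl A).Adj x z ∧ (dbl A).Adj z y}.ncard + ind ((dbl A).Adj x y) = k := by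
    intro x y
    obtain ⟨a, i⟩ := x
    obtain ⟨b, j⟩ := y
    rw [ncard_setOf, Fintype.sum_prod_type, Fintype.sum_bool]
    have e1 : ∀ l : V, ind ((dbl A).Adj (a, i) (true, l) ∧ (dbl A).Adj (true, l) (b, j)) +
        ind ((dbl A).Adj (a, i) (false, l) ∧ (dbl A).Adj (false, l) (b, j)) +
        ind (l = i) * ind ((dbl A).Adj (a, i) (b, j)) = ind ((dbl A).Adj (false, l) (b, j)) := by
      intro l
      by_cases hl : l = i
      · subst hl
        have e2 : (dbl A).Adj (a, l) (b, j) ↔ (dbl A).Adj (false, l) (b, j) := by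
          rw [dbl_iff, dbl_iff]
        simp [dbl_true, dbl_false, e2]
      · have e2 : (dbl A).Adj (true, l) (b, j) ↔ (dbl A).Adj (false, l) (b, j) := by
          rw [dbl_iff, dbl_iff]
        have hl' : i ≠ l := fun h => hl h.symm
        by_cases h3 : A.Adj i l <;> simp [dbl_true, dbl_false, e2, hl, hl', h3]
    have e3 : (∑ l : V, ind ((dbl A).Adj (a, i) (true, l) ∧ (dbl A).Adj (true, l) (b, j))) +
        (∑ l : V, ind ((dbl A).Adj (a, i) (false, l) ∧ (dbl A).Adj (false, l) (b, j))) +
        ind ((dbl A).Adj (a, i) (b, j)) = ∑ l : V, ind ((dbl A).Adj (false, l) (b, j)) := by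
      rw [← Finset.sum_congr rfl (fun l _ => e1 l), Finset.sum_add_distrib, Finset.sum_add_distrib,
        ← Finset.sum_mul, sum_ind_eq', one_mul]
    rw [e3]
    cases b
    · simp only [dbl_false]
      exact hA' j
    · simp only [dbl_true]
      exact hB' j
  refine ⟨?_, ?_, ?_, ?_, ?_, ?_, ?_⟩
  · rw [Nat.card_eq_fintype_card, Fintype.card_prod, Fintype.card_bool, hV]
    ring
  · rintro ⟨a, i⟩
    rw [dbl_iff]
    simp
  · rintro ⟨a, i⟩
    rw [ncard_setOf, Fintype.sum_prod_type, Fintype.sum_bool]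
    simp only [dbl_true, dbl_false]
    rw [hA, hB]
    ring
  · rintro ⟨b, j⟩
    rw [ncard_setOf, Fintype.sum_prod_type, Fintype.sum_bool]
    cases b
    · simp only [dbl_false]
      rw [hA']
      ring
    · simp only [dbl_true]
      rw [hB']
      ring
  · rintro ⟨a, i⟩
    have h := hP (a, i) (a, i)
    have h2 : ¬ (dbl A).Adj (a, i) (a, i) := by
      rw [dbl_iff]
      simp
    rw [ind_neg h2] at h
    exact h
  · intro x y hxy
    have h := hP x y
    rw [ind_pos hxy] at h
    omega
  · intro x y _ hxy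
    have h := hP x y
    rw [ind_neg hxy] at h
    exact h

end Count

end Pool.Agent.H94.DS
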