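import Mathlib

/-!
# Directed strongly regular graphs
-/

set_option autoImplicit false

namespace Pool.Agent.H94.DS

/-- A *directed strongly regular graph* (Duval, 1988) with parameters `(n, k, t, l, m)`: a digraph
without loops on `n` vertices, in which every vertex has `k` out-neighbours and `k` in-neighbours,
and in which the number of the directed paths of length two from `x` to `y` is `t` if `x = y`, is
`l` if there is an arc from `x` to `y`, and is `m` otherwise. -/
structure IsDSRG {V : Type*} (D : Digraph V) (n k t l m : ℕ) : Prop where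
  card : Nat.card V = n
  loopless : ∀ x, ¬ D.Adj x x
  out_degree : ∀ x, {y | D.Adj x y}.ncard = k
  in_degree : ∀ x, {y | D.Adj y x}.ncard = k
  of_eq : ∀ x, {z | D.Adj x z ∧ D.Adj z x}.ncard = t
  of_adj : ∀ x y, D.Adj x y → {z | D.Adj x z ∧ D.Adj z y}.ncard = l
  of_not_adj : ∀ x y, x ≠ y → ¬ D.Adj x y → {z | D.Adj x z ∧ D.Adj z y}.ncard = m

/-- The directed strongly regular graphs with parameters `(4 k + 2, 2 k, k, k - 1, k)`, `k ≥ 1`. -/
def HalfDSRG {V : Type*} (D : Digraph V) : Prop :=
  ∃ k : ℕ, 1 ≤ k ∧ IsDSRG D (4 * k + 2) (2 * k) k (k - 1) k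

end Pool.Agent.H94.DS
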