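import Pool.Agent.H94.DS.Dbl

/-!
# The eigenvalues of the directed strongly regular graphs with parameters `(4k+2, 2k, k, k-1, k)`
-/

set_option autoImplicit false

namespace Pool.Agent.H94.DS

/-- `z` is an eigenvalue of the adjacency matrix of the digraph `D`. -/
def IsEigenvalue {V : Type*} [Fintype V] (D : Digraph V) (z : ℂ) : Prop :=
  open Classical in
  ∃ f : V → ℂ, f ≠ 0 ∧ ∀ x, ∑ y, (if D.Adj x y then f y else 0) = z * f x

variable {V : Type*} [Fintype V]

/-- the adjacency operator -/
noncomputable def op (D : Digraph V) (f : V → ℂ) (x : V) : ℂ := ∑ y, (ind (D.Adj x y) : ℂ) * f y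

theorem isEigenvalue_iff (D : Digraph V) (z : ℂ) :
    IsEigenvalue D z ↔ ∃ f : V → ℂ, f ≠ 0 ∧ ∀ x, op D f x = z * f x := by
  classical
  have h : ∀ (f : V → ℂ) x, op D f x = ∑ y, (if D.Adj x y then f y else 0) := by
    intro f x
    unfold op
    refine Finset.sum_congr rfl fun y _ => ?_
    by_cases hxy : D.Adj x y
    · rw [ind_pos hxy, if_pos hxy]
      simp
    · rw [ind_neg hxy, if_neg hxy]
      simp
  unfold IsEigenvalue
  constructor
  · rintro ⟨f, hf, h1⟩
    refine ⟨f, hf, fun x => ?_⟩
    rw [h, ← h1]
  · rintro ⟨f, hf, h1⟩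
    refine ⟨f, hf, fun x => ?_⟩
    rw [← h1, h]

theorem sum_op {D : Digraph V} {r : ℕ} (h : ∀ x, {y | D.Adj y x}.ncard = r) (f : V → ℂ) :
    ∑ x, op D f x = r * ∑ x, f x := by
  unfold op
  rw [Finset.sum_comm, Finset.mul_sum]
  refine Finset.sum_congr rfl fun y _ => ?_
  rw [← Finset.sum_mul]
  congr 1
  have h1 := h y
  rw [ncard_setOf] at h1
  rw [← h1]
  push_cast
  rfl

theorem op_op {D : Digraph V} {k : ℕ} (hD : IsDSRG D (4 * k + 2) (2 * k) k (k - 1) k) (hk : 1 ≤ k)
    (f : V → ℂ) (x : V) : op D (op D f) x + op D f x = k * ∑ y, f y := by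
  classical
  have hP : ∀ x y, (∑ z, (ind (D.Adj x z) : ℂ) * (ind (D.Adj z y) : ℂ)) + (ind (D.Adj x y) : ℂ) =
      k := by
    intro x y
    have e1 : {z | D.Adj x z ∧ D.Adj z y}.ncard + ind (D.Adj x y) = k := by
      by_cases hxy : D.Adj x y
      · rw [ind_pos hxy, hD.of_adj x y hxy]
        omega
      · rw [ind_neg hxy]
        by_cases he : x = y
        · subst he
          rw [hD.of_eq x, add_zero]
        · rw [hD.of_not_adj x y he hxy, add_zero]
    rw [← e1, ncard_setOf]
    push_cast
    congr 1
    refine Finset.sum_congr rfl fun z _ => ?_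
    by_cases h1 : D.Adj x z <;> by_cases h2 : D.Adj z y <;> simp [h1, h2]
  have e2 : op D (op D f) x = ∑ y, (∑ z, (ind (D.Adj x z) : ℂ) * (ind (D.Adj z y) : ℂ)) * f y := by
    unfold op
    simp only [Finset.mul_sum, Finset.sum_mul]
    rw [Finset.sum_comm]
    refine Finset.sum_congr rfl fun z _ => Finset.sum_congr rfl fun y _ => by ring
  rw [e2]
  unfold op
  rw [← Finset.sum_add_distrib, Finset.mul_sum]
  refine Finset.sum_congr rfl fun y _ => ?_
  rw [← hP x y]
  ring

/-- The difference of two unit vectors. -/
noncomputable def dif (i j : V) (y : V) : ℂ := (ind (y = i) : ℂ) - (ind (y = j) : ℂ)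

theorem sum_dif (i j : V) : ∑ y, dif i j y = 0 := by
  unfold dif
  rw [Finset.sum_sub_distrib]
  have h1 := sum_ind_eq' i
  have h2 := sum_ind_eq' j
  have h3 : ∑ y, (ind (y = i) : ℂ) = 1 := by exact_mod_cast h1
  have h4 : ∑ y, (ind (y = j) : ℂ) = 1 := by exact_mod_cast h2
  rw [h3, h4, sub_self]

theorem sum_mul_ind (g : V → ℂ) (i : V) : ∑ y, g y * (ind (y = i) : ℂ) = g i := by
  classical
  rw [Finset.sum_eq_single i]
  · rw [ind_pos rfl]
    simp
  · intro y _ hy
    rw [ind_neg hy]
    simp
  · intro h
    exact absurd (Finset.mem_univ i) h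

theorem op_dif (D : Digraph V) (i j x : V) :
    op D (dif i j) x = (ind (D.Adj x i) : ℂ) - (ind (D.Adj x j) : ℂ) := by
  unfold op dif
  simp only [mul_sub]
  rw [Finset.sum_sub_distrib, sum_mul_ind (fun y => (ind (D.Adj x y) : ℂ)),
    sum_mul_ind (fun y => (ind (D.Adj x y) : ℂ))]

/-- The digraph has exactly the three eigenvalues `2 k`, `0` and `-1`. -/
theorem eigenvalue_iff {D : Digraph V} {k : ℕ} (hD : IsDSRG D (4 * k + 2) (2 * k) k (k - 1) k)
    (hk : 1 ≤ k) (z : ℂ) : IsEigenvalue D z ↔ z = 2 * k ∨ z = 0 ∨ z = -1 := by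
  have hcard : Fintype.card V = 4 * k + 2 := by
    rw [← Nat.card_eq_fintype_card, hD.card]
  rw [isEigenvalue_iff]
  constructor
  · rintro ⟨f, hf, h⟩
    have h1 := sum_op hD.in_degree f
    simp only [h] at h1
    rw [← Finset.mul_sum] at h1
    by_cases hs : ∑ x, f x = 0
    · right
      obtain ⟨x, hx⟩ := Function.ne_iff.1 hf
      have h2 := op_op hD hk f x
      have h3 : op D (op D f) x = z * (z * f x) := by
        have : op D (op D f) x = z * op D f x := by
          unfold op
          rw [Finset.mul_sum]
          refine Finset.sum_congr rfl fun y _ => ?_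
          have := h y
          unfold op at this
          rw [this]
          ring
        rw [this, h]
      rw [h3, h, hs, mul_zero] at h2
      have h4 : z * (z + 1) * f x = 0 := by
        rw [← h2]
        ring
      rcases mul_eq_zero.1 h4 with h5 | h5
      · rcases mul_eq_zero.1 h5 with h6 | h6
        · exact Or.inl h6
        · exact Or.inr (eq_neg_of_add_eq_zero_left h6)
      · exact absurd h5 hx
    · left
      have := mul_right_cancel₀ hs h1
      rw [this]
      push_cast
      ring
  · obtain ⟨x0⟩ : Nonempty V := by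
      rw [← Fintype.card_pos_iff]
      omega
    rintro (rfl | rfl | rfl)
    · refine ⟨fun _ => 1, ?_, fun x => ?_⟩
      · intro h
        have := congrFun h x0
        simp at this
      · unfold op
        have h1 := hD.out_degree x
        rw [ncard_setOf] at h1
        simp only [mul_one]
        exact_mod_cast h1
    · -- `0`
      obtain ⟨y, hy, hxy⟩ : ∃ y, y ≠ x0 ∧ ¬ D.Adj x0 y := by
        by_contra hcon
        push Not at hcon
        have h1 := hD.out_degree x0
        rw [ncard_setOf] at h1
        have h2 := sum_ind_eq' x0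
        have h3 : ∑ y, (ind (D.Adj x0 y) + ind (y = x0)) = ∑ _y : V, 1 := by
          refine Finset.sum_congr rfl fun y _ => ?_
          by_cases h : y = x0
          · subst h
            rw [ind_neg (hD.loopless _), ind_pos rfl]
          · rw [ind_pos (hcon y h), ind_neg h]
        rw [Finset.sum_add_distrib, h1, h2, Finset.sum_const, smul_eq_mul, mul_one,
          Finset.card_univ, hcard] at h3
        omega
      refine ⟨fun x => op D (dif x0 y) x + dif x0 y x, ?_, fun x => ?_⟩
      · intro h
        have h1 := congrFun h x0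
        simp only [Pi.zero_apply] at h1
        rw [op_dif, ind_neg (hD.loopless x0), ind_neg hxy] at h1
        unfold dif at h1
        rw [ind_pos rfl, ind_neg hy.symm] at h1
        simp at h1
      · have h1 := op_op hD hk (dif x0 y) x
        rw [sum_dif, mul_zero] at h1
        rw [zero_mul, ← h1]
        unfold op
        rw [← Finset.sum_add_distrib]
        exact Finset.sum_congr rfl fun w _ => by ring
    · -- `-1`
      obtain ⟨y, hxy⟩ : ∃ y, D.Adj x0 y := by
        by_contra hcon
        push Not at hcon
        have h1 := hD.out_degree x0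
        rw [ncard_setOf] at h1
        have h3 : ∑ y, ind (D.Adj x0 y) = ∑ _y : V, 0 := by
          refine Finset.sum_congr rfl fun y _ => ?_
          rw [ind_neg (hcon y)]
        rw [h1, Finset.sum_const_zero] at h3
        omega
      refine ⟨fun x => op D (dif x0 y) x, ?_, fun x => ?_⟩
      · intro h
        have h1 := congrFun h x0
        simp only [Pi.zero_apply] at h1
        rw [op_dif, ind_neg (hD.loopless x0), ind_pos hxy] at h1
        simp at h1
      · have h1 := op_op hD hk (dif x0 y) x
        rw [sum_dif, mul_zero] at h1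
        have h2 : (fun x => op D (dif x0 y) x) = op D (dif x0 y) := rfl
        rw [h2]
        linear_combination h1

end Pool.Agent.H94.DS
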