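import Pool.Agent.H94.DS.Reg

/-!
# Adding isolated vertices
-/

set_option autoImplicit false

namespace Pool.Agent.H94.DS

variable {V W : Type*}

/-- The graph with a further isolated vertex. -/
def addO (G : SimpleGraph V) : SimpleGraph (Option V) where
  Adj x y := match x, y with
    | some u, some v => G.Adj u v
    | _, _ => False
  symm := ⟨fun x y h => by
    cases x <;> cases y <;> simp only at h ⊢
    exact h.symm⟩
  loopless := ⟨fun x h => by
    cases x <;> simp at h⟩

@[simp] theorem addO_some (G : SimpleGraph V) (u v : V) :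
    (addO G).Adj (some u) (some v) ↔ G.Adj u v := Iff.rfl

@[simp] theorem addO_none (G : SimpleGraph V) (v : Option V) : ¬ (addO G).Adj none v := by
  cases v <;> exact fun h => h

@[simp] theorem addO_none' (G : SimpleGraph V) (v : Option V) : ¬ (addO G).Adj v none := by
  cases v <;> exact fun h => h

theorem addO_map {G : SimpleGraph V} {H : SimpleGraph W} (φ : G ≃g H) :
    Nonempty (addO G ≃g addO H) := by
  refine ⟨⟨Equiv.optionCongr φ.toEquiv, fun {x y} => ?_⟩⟩
  have h1 : ∀ i j, H.Adj (φ i) (φ j) ↔ G.Adj i j := fun i j => φ.map_rel_iff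
  cases x <;> cases y <;> simp [h1]

theorem addO_iso {G : SimpleGraph V} {H : SimpleGraph W} (φ : addO G ≃g addO H) :
    Nonempty (G ≃g H) := by
  have key : ∀ u, (φ (some u) = some (Equiv.removeNone φ.toEquiv u)) ∨
      (φ (some u) = none ∧ φ none = some (Equiv.removeNone φ.toEquiv u)) := by
    intro u
    cases h : φ (some u) with
    | none =>
      right
      exact ⟨rfl, (Equiv.removeNone_none φ.toEquiv h).symm⟩
    | some v =>
      left
      rw [← h]
      exact (Equiv.removeNone_some φ.toEquiv ⟨v, h⟩).symm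
  have hno : ∀ w, ¬ (addO H).Adj (φ none) w := by
    intro w
    obtain ⟨w, rfl⟩ := φ.surjective w
    rw [φ.map_rel_iff]
    simp
  refine ⟨⟨Equiv.removeNone φ.toEquiv, fun {u v} => ?_⟩⟩
  rw [← addO_some G, ← addO_some H, ← φ.map_rel_iff]
  rcases key u with hu | ⟨hu, hu'⟩
  · rcases key v with hv | ⟨hv, hv'⟩
    · rw [hu, hv]
    · rw [hv, ← hv']
      refine iff_of_false (fun h => hno _ h.symm) (by simp)
  · rw [hu, ← hu']
    exact iff_of_false (hno _) (by simp)

/-- The graph on `{0, ..., m - 1}` with the adjacency of a graph on the natural numbers. -/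
def cutAt (X : SimpleGraph ℕ) (m : ℕ) : SimpleGraph (Fin m) := X.comap Fin.val

/-- The numbers from `m` on are isolated. -/
def Below (X : SimpleGraph ℕ) (m : ℕ) : Prop := ∀ i j, X.Adj i j → i < m

theorem Below.mono {X : SimpleGraph ℕ} {m k : ℕ} (h : Below X m) (hk : m ≤ k) : Below X k :=
  fun i j hij => (h i j hij).trans_le hk

theorem cutAt_succ {X : SimpleGraph ℕ} {m : ℕ} (h : Below X m) :
    Nonempty (cutAt X (m + 1) ≃g addO (cutAt X m)) := by
  refine ⟨RelIso.symm ⟨finSuccEquivLast.symm, fun {x y} => ?_⟩⟩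
  cases x with
  | none =>
    simp only [finSuccEquivLast_symm_none, addO_none, iff_false]
    intro h1
    exact absurd (h _ _ h1) (by simp)
  | some x =>
    cases y with
    | none =>
      simp only [finSuccEquivLast_symm_none, addO_none', iff_false]
      intro h1
      exact absurd (h _ _ h1.symm) (by simp)
    | some y =>
      simp only [finSuccEquivLast_symm_some]
      exact Iff.rfl

theorem cutAt_iso_succ {X Y : SimpleGraph ℕ} {m m' : ℕ} (hX : Below X m) (hY : Below Y m') :
    Nonempty (cutAt X (m + 1) ≃g cutAt Y (m' + 1)) ↔ Nonempty (cutAt X m ≃g cutAt Y m') := by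
  obtain ⟨φ⟩ := cutAt_succ hX
  obtain ⟨ψ⟩ := cutAt_succ hY
  constructor
  · rintro ⟨θ⟩
    exact addO_iso ((φ.symm.trans θ).trans ψ)
  · rintro ⟨θ⟩
    obtain ⟨χ⟩ := addO_map θ
    exact ⟨(φ.trans χ).trans ψ.symm⟩

/-- Isolated vertices can be added and cancelled. -/
theorem cutAt_iso_add {X Y : SimpleGraph ℕ} {m m' : ℕ} (hX : Below X m) (hY : Below Y m') (k : ℕ) :
    Nonempty (cutAt X (m + k) ≃g cutAt Y (m' + k)) ↔ Nonempty (cutAt X m ≃g cutAt Y m') := by
  induction k with
  | zero => rfl
  | succ k ih =>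
    rw [← add_assoc, ← add_assoc, cutAt_iso_succ (hX.mono (by omega)) (hY.mono (by omega)), ih]

end Pool.Agent.H94.DS
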