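import Pool.Agent.H94.DS.Dbl

/-!
# A graph for each regular digraph
-/

set_option autoImplicit false

namespace Pool.Agent.H94.DS

variable {V W : Type*}

/-- The vertices: three copies of `V`. -/
abbrev UV (V : Type*) : Type _ := V ⊕ V ⊕ V

/-- The adjacency of the graph of a digraph. -/
def undAdj (D : Digraph V) : UV V → UV V → Prop
  | .inl u, .inl v => u ≠ v
  | .inl u, .inr (.inl v) => D.Adj u v
  | .inl u, .inr (.inr v) => u = v
  | .inr (.inl u), .inl v => D.Adj v u
  | .inr (.inl _), .inr (.inl _) => False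
  | .inr (.inl u), .inr (.inr v) => u = v
  | .inr (.inr u), .inl v => u = v
  | .inr (.inr u), .inr (.inl v) => u = v
  | .inr (.inr _), .inr (.inr _) => False

/-- The graph of a digraph: the first copy of `V` is a clique, the arcs are the edges between the
first two copies, and the third copy is matched to the first two copies. -/
def und (D : Digraph V) : SimpleGraph (UV V) where
  Adj := undAdj D
  symm := ⟨fun x y h => by
    rcases x with x | x | x <;> rcases y with y | y | y <;> simp only [undAdj] at h ⊢ <;>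
      first | exact h | exact h.symm⟩
  loopless := ⟨fun x h => by
    rcases x with x | x | x <;> simp [undAdj] at h⟩

@[simp] theorem und_00 (D : Digraph V) (u v : V) : (und D).Adj (.inl u) (.inl v) ↔ u ≠ v := Iff.rfl
@[simp] theorem und_01 (D : Digraph V) (u v : V) :
    (und D).Adj (.inl u) (.inr (.inl v)) ↔ D.Adj u v := Iff.rfl
@[simp] theorem und_02 (D : Digraph V) (u v : V) :
    (und D).Adj (.inl u) (.inr (.inr v)) ↔ u = v := Iff.rfl
@[simp] theorem und_10 (D : Digraph V) (u v : V) :
    (und D).Adj (.inr (.inl u)) (.inl v) ↔ D.Adj v u := Iff.rfl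
@[simp] theorem und_11 (D : Digraph V) (u v : V) :
    (und D).Adj (.inr (.inl u)) (.inr (.inl v)) ↔ False := Iff.rfl
@[simp] theorem und_12 (D : Digraph V) (u v : V) :
    (und D).Adj (.inr (.inl u)) (.inr (.inr v)) ↔ u = v := Iff.rfl
@[simp] theorem und_20 (D : Digraph V) (u v : V) :
    (und D).Adj (.inr (.inr u)) (.inl v) ↔ u = v := Iff.rfl
@[simp] theorem und_21 (D : Digraph V) (u v : V) :
    (und D).Adj (.inr (.inr u)) (.inr (.inl v)) ↔ u = v := Iff.rfl
@[simp] theorem und_22 (D : Digraph V) (u v : V) :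
    (und D).Adj (.inr (.inr u)) (.inr (.inr v)) ↔ False := Iff.rfl

/-- Isomorphic digraphs have isomorphic graphs. -/
theorem und_map {D : Digraph V} {E : Digraph W} (φ : D.Adj ≃r E.Adj) :
    Nonempty (und D ≃g und E) := by
  refine ⟨⟨Equiv.sumCongr φ.toEquiv (Equiv.sumCongr φ.toEquiv φ.toEquiv), fun {x y} => ?_⟩⟩
  have h1 : ∀ i j, E.Adj (φ i) (φ j) ↔ D.Adj i j := fun i j => φ.map_rel_iff
  rcases x with x | x | x <;> rcases y with y | y | y <;> simp [h1]

/-- The degree of a vertex. -/
noncomputable def deg {U : Type*} [Fintype U] (X : SimpleGraph U) (x : U) : ℕ :=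
  ∑ y, ind (X.Adj x y)

theorem deg_iso {U U' : Type*} [Fintype U] [Fintype U'] {X : SimpleGraph U} {Y : SimpleGraph U'}
    (φ : X ≃g Y) (x : U) : deg Y (φ x) = deg X x := by
  unfold deg
  rw [← Equiv.sum_comp φ.toEquiv]
  exact Finset.sum_congr rfl fun y _ => ind_congr φ.map_rel_iff

section

variable [Fintype V] [Fintype W]

theorem sum_ne (u : V) : (∑ v, ind (u ≠ v)) + 1 = Fintype.card V := by
  rw [← sum_ind_eq u, ← Finset.sum_add_distrib, ← Finset.card_univ, Finset.card_eq_sum_ones]
  refine Finset.sum_congr rfl fun j _ => ?_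
  by_cases h1 : u = j
  · simp [h1]
  · simp [h1]

theorem deg_0 {D : Digraph V} {r : ℕ} (h : ∀ x, {y | D.Adj x y}.ncard = r) (u : V) :
    deg (und D) (.inl u) = Fintype.card V + r := by
  have h1 := h u
  rw [ncard_setOf] at h1
  have h2 := sum_ne u
  have h3 := sum_ind_eq u
  unfold deg
  rw [Fintype.sum_sum_type, Fintype.sum_sum_type]
  simp only [und_00, und_01, und_02]
  omega

theorem deg_1 {D : Digraph V} {r : ℕ} (h : ∀ x, {y | D.Adj y x}.ncard = r) (u : V) :
    deg (und D) (.inr (.inl u)) = r + 1 := by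
  have h1 := h u
  rw [ncard_setOf] at h1
  have h3 := sum_ind_eq u
  unfold deg
  rw [Fintype.sum_sum_type, Fintype.sum_sum_type]
  simp only [und_10, und_11, und_12, ind_false, Finset.sum_const_zero]
  omega

theorem deg_2 (D : Digraph V) (u : V) : deg (und D) (.inr (.inr u)) = 2 := by
  have h3 := sum_ind_eq u
  unfold deg
  rw [Fintype.sum_sum_type, Fintype.sum_sum_type]
  simp only [und_20, und_21, und_22, ind_false, Finset.sum_const_zero]
  omega

/-- Regular digraphs with the same number of vertices and isomorphic graphs are isomorphic. -/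
theorem und_iso {D : Digraph V} {E : Digraph W} {r : ℕ} (hr : 2 ≤ r)
    (h1 : ∀ x, {y | D.Adj x y}.ncard = r) (h2 : ∀ x, {y | D.Adj y x}.ncard = r)
    (h3 : ∀ x, {y | E.Adj x y}.ncard = r) (h4 : ∀ x, {y | E.Adj y x}.ncard = r)
    (hVW : Fintype.card V = Fintype.card W) (hV : 2 ≤ Fintype.card V)
    (φ : und D ≃g und E) : Nonempty (D.Adj ≃r E.Adj) := by
  have k0 : ∀ u, ∃ v, φ (.inl u) = .inl v := by
    intro u
    have h := deg_iso φ (.inl u)
    rw [deg_0 h1] at h
    rcases hx : φ (.inl u) with x | x | x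
    · exact ⟨x, rfl⟩
    · rw [hx, deg_1 h4] at h
      omega
    · rw [hx, deg_2] at h
      omega
  have k1 : ∀ u, ∃ v, φ (.inr (.inl u)) = .inr (.inl v) := by
    intro u
    have h := deg_iso φ (.inr (.inl u))
    rw [deg_1 h2] at h
    rcases hx : φ (.inr (.inl u)) with x | x | x
    · rw [hx, deg_0 h3] at h
      omega
    · exact ⟨x, rfl⟩
    · rw [hx, deg_2] at h
      omega
  have k2 : ∀ u, ∃ v, φ (.inr (.inr u)) = .inr (.inr v) := by
    intro u
    have h := deg_iso φ (.inr (.inr u))
    rw [deg_2] at h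
    rcases hx : φ (.inr (.inr u)) with x | x | x
    · rw [hx, deg_0 h3] at h
      omega
    · rw [hx, deg_1 h4] at h
      omega
    · exact ⟨x, rfl⟩
  choose σ hσ using k0
  choose τ hτ using k1
  choose ρ hρ using k2
  have e1 : ∀ u, σ u = ρ u := by
    intro u
    have h := φ.map_rel_iff (a := Sum.inl u) (b := Sum.inr (Sum.inr u))
    rw [hσ, hρ] at h
    simpa using h
  have e2 : ∀ u, τ u = ρ u := by
    intro u
    have h := φ.map_rel_iff (a := Sum.inr (Sum.inl u)) (b := Sum.inr (Sum.inr u))
    rw [hτ, hρ] at h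
    simpa using h
  have hinj : Function.Injective σ := by
    intro u v huv
    have h : φ (.inl u) = φ (.inl v) := by rw [hσ, hσ, huv]
    simpa using φ.injective h
  have hbij : Function.Bijective σ := (Fintype.bijective_iff_injective_and_card σ).2 ⟨hinj, hVW⟩
  refine ⟨⟨Equiv.ofBijective σ hbij, fun {u v} => ?_⟩⟩
  have h := φ.map_rel_iff (a := Sum.inl u) (b := Sum.inr (Sum.inl v))
  rw [hσ, hτ, und_01, und_01] at h
  rw [← h, e2, ← e1]
  rfl

end

/-- The graphs of two digraphs of the class are isomorphic if and only if the digraphs are. -/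
theorem und_iff {D : Digraph V} {E : Digraph W} [Fintype V] [Fintype W] (hD : HalfDSRG D)
    (hE : HalfDSRG E) : Nonempty (und D ≃g und E) ↔ Nonempty (D.Adj ≃r E.Adj) := by
  constructor
  · rintro ⟨φ⟩
    obtain ⟨k, hk, hD⟩ := hD
    obtain ⟨k', hk', hE⟩ := hE
    have hV : Fintype.card V = 4 * k + 2 := by
      rw [← Nat.card_eq_fintype_card, hD.card]
    have hW : Fintype.card W = 4 * k' + 2 := by
      rw [← Nat.card_eq_fintype_card, hE.card]
    have h1 := Fintype.card_congr φ.toEquiv
    simp only [Fintype.card_sum] at h1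
    have h2 : k = k' := by omega
    subst h2
    exact und_iso (r := 2 * k) (by omega) hD.out_degree hD.in_degree hE.out_degree hE.in_degree
      (by omega) (by omega) φ
  · rintro ⟨φ⟩
    exact und_map φ

end Pool.Agent.H94.DS
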