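import Pool.Agent.H94.DS.GIDef
import Pool.Agent.H94.DS.Pad
import Pool.Agent.H94.DS.Und
import Pool.Graph.R_pool_sql_team_seeded_620a6dc7.H129.UB.Red

/-!
# The constructions on adjacency matrices
-/

set_option autoImplicit false

namespace Pool.Agent.NPC.DS94

open Pool.Agent.H94.DS Pool.Agent.NPC.R671
open Pool.Agent.NPC.UB129 (Mat ent ent_adjMatrix length_adjMatrix valid valid_iff upoly_len poly_ent
  poly_valid)

theorem ent_digMatrix {n : ℕ} (D : Digraph (Fin n)) (i j : Fin n) :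
    ent (digMatrix D) i j = true ↔ D.Adj i j := by
  classical
  have h1 : (digMatrix D).getD (i : ℕ) [] = List.ofFn fun j => decide (D.Adj i j) := by
    unfold digMatrix
    rw [List.getD_eq_getElem _ _ (by simp)]
    simp
  unfold ent
  rw [h1, List.getD_eq_getElem _ _ (by simp)]
  simp

theorem length_digMatrix {n : ℕ} (D : Digraph (Fin n)) : (digMatrix D).length = n := by
  simp [digMatrix]

/-- The digraph given by a list of labels and a function. -/
def listDig {Λ : Type} (vs : List Λ) (ad : Λ → Λ → Bool) {N : ℕ} (hN : vs.length = N) :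
    Digraph (Fin N) where
  Adj i j := ad (vs[i.val]'(by rw [hN]; exact i.isLt)) (vs[j.val]'(by rw [hN]; exact j.isLt)) = true

theorem digMatrix_listDig {Λ : Type} (vs : List Λ) (ad : Λ → Λ → Bool) {N : ℕ}
    (hN : vs.length = N) :
    digMatrix (listDig vs ad hN) = vs.map (fun u => vs.map (fun w => ad u w)) := by
  subst hN
  unfold digMatrix listDig
  apply List.ext_getElem
  · simp
  · intro i h1 h2
    simp only [List.getElem_ofFn, List.getElem_map]
    apply List.ext_getElem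
    · simp
    · intro j h3 h4
      simp

/-! ### The labels -/

/-- The labels of the vertices of the regular graph. -/
def rvList (n : ℕ) : List (ℕ × Bool × ℕ) :=
  (([0, 1] : List ℕ) ×ˢ (([false, true] : List Bool) ×ˢ List.range n)) ++ [(2, false, 0)]

/-- The labels of the vertices of the digraph. -/
def dvList (n : ℕ) : List (Bool × ℕ × Bool × ℕ) := ([false, true] : List Bool) ×ˢ rvList n

theorem length_dvList (n : ℕ) : (dvList (n + 2)).length = 8 * n + 18 := by
  simp [dvList, rvList]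
  ring

/-- The label of a vertex of the regular graph. -/
def labR {n : ℕ} : RV (Fin n) → ℕ × Bool × ℕ
  | .inl (c, u) => (0, c, u)
  | .inr (.inl (c, u)) => (1, c, u)
  | .inr (.inr _) => (2, false, 0)

theorem labR_injective {n : ℕ} : Function.Injective (labR (n := n)) := by
  intro x y h
  rcases x with ⟨c, u⟩ | ⟨c, u⟩ | x <;> rcases y with ⟨d, v⟩ | ⟨d, v⟩ | y <;>
    simp [labR, Fin.ext_iff] at h ⊢ <;> exact h

theorem mem_rvList {n : ℕ} (z : ℕ × Bool × ℕ) : z ∈ rvList n ↔ ∃ x : RV (Fin n), labR x = z := by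
  obtain ⟨a, c, u⟩ := z
  unfold rvList
  rw [List.mem_append]
  simp only [List.mem_product, List.mem_cons, List.not_mem_nil, or_false, List.mem_range,
    Prod.mk.injEq]
  constructor
  · rintro (⟨h1, _, h3⟩ | ⟨rfl, rfl, rfl⟩)
    · rcases h1 with rfl | rfl
      · exact ⟨.inl (c, ⟨u, h3⟩), rfl⟩
      · exact ⟨.inr (.inl (c, ⟨u, h3⟩)), rfl⟩
    · exact ⟨.inr (.inr ()), rfl⟩
  · rintro ⟨x, hx⟩
    rcases x with ⟨d, v⟩ | ⟨d, v⟩ | x <;> simp only [labR, Prod.mk.injEq] at hx
    · obtain ⟨rfl, rfl, rfl⟩ := hx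
      left
      exact ⟨Or.inl rfl, by cases d <;> simp, v.isLt⟩
    · obtain ⟨rfl, rfl, rfl⟩ := hx
      left
      exact ⟨Or.inr rfl, by cases d <;> simp, v.isLt⟩
    · obtain ⟨rfl, rfl, rfl⟩ := hx
      right
      exact ⟨rfl, rfl, rfl⟩

theorem nodup_rvList (n : ℕ) : (rvList n).Nodup := by
  unfold rvList
  refine List.Nodup.append ?_ (List.nodup_singleton _) ?_
  · exact List.Nodup.product (by simp) (List.Nodup.product (by simp) List.nodup_range)
  · intro z hz hz'
    rw [List.mem_singleton] at hz'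
    subst hz'
    simp at hz

/-- The label of a vertex of the digraph. -/
def labD {n : ℕ} (x : Bool × RV (Fin n)) : Bool × ℕ × Bool × ℕ := (x.1, labR x.2)

theorem labD_injective {n : ℕ} : Function.Injective (labD (n := n)) := by
  rintro ⟨a, x⟩ ⟨b, y⟩ h
  simp only [labD, Prod.mk.injEq] at h
  exact Prod.ext h.1 (labR_injective (by simpa [Prod.ext_iff] using h.2))

theorem mem_dvList {n : ℕ} (z : Bool × ℕ × Bool × ℕ) :
    z ∈ dvList n ↔ ∃ x : Bool × RV (Fin n), labD x = z := by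
  obtain ⟨b, z⟩ := z
  unfold dvList
  rw [List.mem_product, mem_rvList]
  constructor
  · rintro ⟨_, x, hx⟩
    exact ⟨(b, x), by simp only [labD, hx]⟩
  · rintro ⟨⟨b', x⟩, hx⟩
    simp only [labD, Prod.mk.injEq] at hx
    exact ⟨by cases b <;> simp, x, by simpa [Prod.ext_iff] using hx.2⟩

theorem nodup_dvList (n : ℕ) : (dvList n).Nodup :=
  List.Nodup.product (by simp) (nodup_rvList n)

/-! ### The tests -/

/-- The test for adjacency in the regular graph. -/
def rB (M : Mat) (x y : ℕ × Bool × ℕ) : Bool :=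
  (decide (x.1 = 0) && (decide (y.1 = 0) &&
    ((decide (x.2.1 = y.2.1) && ent M x.2.2 y.2.2) ||
      (!decide (x.2.1 = y.2.1) && (!decide (x.2.2 = y.2.2) && !ent M x.2.2 y.2.2))))) ||
  ((decide (x.1 + y.1 = 1) && decide (x.2.1 = y.2.1)) ||
  ((decide (x.1 = 1) && (decide (y.1 = 1) && !decide (x.2.1 = y.2.1))) ||
    (decide (x.1 + y.1 = 2) && !decide (x.1 = 1))))

/-- The test for arcs in the digraph. -/
def dB (M : Mat) (x y : Bool × ℕ × Bool × ℕ) : Bool :=
  (!y.1 && rB M x.2 y.2) || (y.1 && (!decide (x.2 = y.2) && !rB M x.2 y.2))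

/-- The graph on the natural numbers. -/
def gN {n : ℕ} (G : SimpleGraph (Fin n)) : SimpleGraph ℕ := G.map Fin.valEmbedding

theorem gN_below {n : ℕ} (G : SimpleGraph (Fin n)) : Below (gN G) n := by
  intro i j h
  unfold gN at h
  rw [SimpleGraph.map_adj] at h
  obtain ⟨u, v, _, rfl, _⟩ := h
  exact u.isLt

theorem gN_adj {n : ℕ} (G : SimpleGraph (Fin n)) (u v : Fin n) :
    (gN G).Adj u v ↔ G.Adj u v := by
  unfold gN
  rw [SimpleGraph.map_adj]
  constructor
  · rintro ⟨u', v', h, hu, hv⟩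
    have h1 : u' = u := Fin.ext hu
    have h2 : v' = v := Fin.ext hv
    rwa [← h1, ← h2]
  · intro h
    exact ⟨u, v, h, rfl, rfl⟩

theorem ent_gN {n : ℕ} (G : SimpleGraph (Fin n)) (i j : ℕ) :
    ent (adjMatrix G) i j = true ↔ (gN G).Adj i j := by
  by_cases hi : i < n
  · by_cases hj : j < n
    · rw [ent_adjMatrix G ⟨i, hi⟩ ⟨j, hj⟩, ← gN_adj]
    · refine iff_of_false ?_ (fun h => hj (gN_below G _ _ h.symm))
      have h1 : (adjMatrix G).getD i [] = List.ofFn fun j => open Classical in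
          decide (G.Adj ⟨i, hi⟩ j) := by
        unfold adjMatrix
        rw [List.getD_eq_getElem _ _ (by simpa using hi)]
        simp
      unfold ent
      rw [h1, List.getD_eq_default _ _ (by simpa using hj)]
      simp
  · refine iff_of_false ?_ (fun h => hi (gN_below G _ _ h))
    have h1 : (adjMatrix G).getD i [] = [] := by
      rw [List.getD_eq_default _ _ (by rw [length_adjMatrix]; omega)]
    unfold ent
    rw [h1]
    simp

theorem cutAt_gN {n : ℕ} (G : SimpleGraph (Fin n)) : Nonempty (cutAt (gN G) n ≃g G) :=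
  ⟨⟨Equiv.refl _, fun {u v} => (gN_adj G u v).symm⟩⟩

/-- The graph with two further isolated vertices. -/
def pad {n : ℕ} (G : SimpleGraph (Fin n)) : SimpleGraph (Fin (n + 2)) := cutAt (gN G) (n + 2)

theorem pad_adj {n : ℕ} (G : SimpleGraph (Fin n)) (u v : Fin (n + 2)) :
    (pad G).Adj u v ↔ ent (adjMatrix G) u v = true := by
  rw [ent_gN]
  exact Iff.rfl

theorem pad_iso {n m : ℕ} (G : SimpleGraph (Fin n)) (H : SimpleGraph (Fin m)) :
    Nonempty (pad G ≃g pad H) ↔ Nonempty (G ≃g H) := by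
  unfold pad
  rw [cutAt_iso_add (gN_below G) (gN_below H)]
  obtain ⟨φ⟩ := cutAt_gN G
  obtain ⟨ψ⟩ := cutAt_gN H
  constructor
  · rintro ⟨θ⟩
    exact ⟨(φ.symm.trans θ).trans ψ⟩
  · rintro ⟨θ⟩
    exact ⟨(φ.trans θ).trans ψ.symm⟩

theorem pad_not_complete {n : ℕ} (G : SimpleGraph (Fin n)) :
    ∃ a b : Fin (n + 2), a ≠ b ∧ ¬ (pad G).Adj a b := by
  refine ⟨⟨n, by omega⟩, ⟨n + 1, by omega⟩, by simp, fun h => ?_⟩
  have h1 : n < n := gN_below G _ _ h
  omega

theorem rB_iff {n : ℕ} (G : SimpleGraph (Fin n)) (x y : RV (Fin (n + 2))) :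
    rB (adjMatrix G) (labR x) (labR y) = true ↔ (reg (pad G)).Adj x y := by
  rcases x with ⟨c, u⟩ | ⟨c, u⟩ | x <;> rcases y with ⟨d, v⟩ | ⟨d, v⟩ | y
  · rw [reg_tt, pad_adj]
    simp only [rB, labR, Bool.or_eq_true, Bool.and_eq_true, decide_eq_true_eq,
      Bool.not_eq_true', decide_eq_false_iff_not, Bool.not_eq_true]
    simp
    rw [Fin.ext_iff]
  · simp [rB, labR]
  · simp [rB, labR]
  · simp [rB, labR]
  · simp [rB, labR]
  · simp [rB, labR]
  · simp [rB, labR]
  · simp [rB, labR]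
  · simp [rB, labR]

theorem dB_iff {n : ℕ} (G : SimpleGraph (Fin n)) (x y : Bool × RV (Fin (n + 2))) :
    dB (adjMatrix G) (labD x) (labD y) = true ↔ (dbl (reg (pad G))).Adj x y := by
  obtain ⟨a, x⟩ := x
  obtain ⟨b, y⟩ := y
  have h1 : rB (adjMatrix G) (labR x) (labR y) = false ↔ ¬ (reg (pad G)).Adj x y := by
    rw [← rB_iff, Bool.not_eq_true]
  rw [dbl_iff]
  cases b <;> simp [dB, labD, rB_iff, h1, labR_injective.eq_iff]

/-- The directed strongly regular graph of a graph. -/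
noncomputable def TT (n : ℕ) (G : SimpleGraph (Fin n)) : Digraph (Fin (8 * n + 18)) :=
  listDig (dvList (n + 2)) (dB (adjMatrix G)) (length_dvList n)

theorem TT_iso (n : ℕ) (G : SimpleGraph (Fin n)) :
    Nonempty ((TT n G).Adj ≃r (dbl (reg (pad G))).Adj) := by
  obtain ⟨e, he⟩ := exists_equiv (dvList (n + 2)) (nodup_dvList _) labD labD_injective mem_dvList
  refine ⟨⟨(finCongr (length_dvList n).symm).trans e, fun {i j} => ?_⟩⟩
  rw [← dB_iff]
  show dB _ (labD (e _)) (labD (e _)) = true ↔ _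
  rw [he, he]
  rfl

theorem TT_half (n : ℕ) (G : SimpleGraph (Fin n)) : HalfDSRG (dbl (reg (pad G))) := by
  refine ⟨2 * (n + 2), by omega, dbl_dsrg ?_ ?_⟩
  · rw [card_RV, Fintype.card_fin]
  · intro x
    rw [reg_degree, Fintype.card_fin]

end Pool.Agent.NPC.DS94
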