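import Pool.Graph.R_seed8.H671R2.ZDefs
import Pool.Graph.R_seed8.NPC.Classes

/-!
# Digraphs as inputs, and the language of graph isomorphism
-/

set_option autoImplicit false

namespace Pool.Agent.NPC.DS94

open Pool.Agent.NPC.R671

/-- The adjacency matrix of a digraph on `{0, ..., n-1}`, as a list of rows. -/
noncomputable def digMatrix {n : ℕ} (D : Digraph (Fin n)) : List (List Bool) :=
  open Classical in List.ofFn fun i => List.ofFn fun j => decide (D.Adj i j)

/-- **GRAPH ISOMORPHISM**, as a language: the codes of the pairs of adjacency matrices of isomorphic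
graphs. -/
def GI : Set (List Bool) :=
  {x | ∃ (n m : ℕ) (G : SimpleGraph (Fin n)) (H : SimpleGraph (Fin m)),
    x = bits (adjMatrix G, adjMatrix H) ∧ Nonempty (G ≃g H)}

end Pool.Agent.NPC.DS94
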