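import Pool.Agent.H94.DS.Enc

/-!
# Isomorphism of directed strongly regular graphs
-/

set_option autoImplicit false

namespace Pool.Agent.NPC.DS94

open Pool.Agent.H94.DS Pool.Agent.NPC.R671
open Pool.Agent.NPC.UB129 (Mat ent ent_adjMatrix length_adjMatrix valid valid_iff upoly_len poly_ent
  poly_valid)

/-! ### The directed strongly regular graph of a graph -/

theorem IsDSRG.of_iso {V W : Type*} {D : Digraph V} {E : Digraph W} {n k t l m : ℕ}
    (φ : D.Adj ≃r E.Adj) (h : IsDSRG E n k t l m) : IsDSRG D n k t l m := by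
  have key : ∀ (p : W → Prop), {x : V | p (φ x)}.ncard = {y | p y}.ncard := by
    intro p
    have h1 : {x : V | p (φ x)} = φ.symm '' {y | p y} := by
      ext x
      constructor
      · intro hx
        exact ⟨φ x, hx, by simp⟩
      · rintro ⟨y, hy, rfl⟩
        simpa using hy
    rw [h1, Set.ncard_image_of_injective _ φ.symm.injective]
  have hD : ∀ x y, D.Adj x y ↔ E.Adj (φ x) (φ y) := fun x y => φ.map_rel_iff.symm
  refine ⟨?_, ?_, ?_, ?_, ?_, ?_, ?_⟩
  · rw [Nat.card_congr φ.toEquiv]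
    exact h.card
  · intro x hx
    exact h.loopless _ ((hD x x).1 hx)
  · intro x
    simp only [hD]
    rw [key (fun y => E.Adj (φ x) y)]
    exact h.out_degree _
  · intro x
    simp only [hD]
    rw [key (fun y => E.Adj y (φ x))]
    exact h.in_degree _
  · intro x
    simp only [hD]
    rw [key (fun z => E.Adj (φ x) z ∧ E.Adj z (φ x))]
    exact h.of_eq _
  · intro x y hxy
    simp only [hD]
    rw [key (fun z => E.Adj (φ x) z ∧ E.Adj z (φ y))]
    exact h.of_adj _ _ ((hD x y).1 hxy)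
  · intro x y hne hxy
    simp only [hD]
    rw [key (fun z => E.Adj (φ x) z ∧ E.Adj z (φ y))]
    exact h.of_not_adj _ _ (fun e => hne (φ.injective e)) (fun e => hxy ((hD x y).2 e))

theorem half_TT (n : ℕ) (G : SimpleGraph (Fin n)) : HalfDSRG (TT n G) := by
  obtain ⟨φ⟩ := TT_iso n G
  obtain ⟨k, hk, h⟩ := TT_half n G
  exact ⟨k, hk, IsDSRG.of_iso φ h⟩

theorem TT_iso_iff {n m : ℕ} (G : SimpleGraph (Fin n)) (H : SimpleGraph (Fin m)) :
    Nonempty ((TT n G).Adj ≃r (TT m H).Adj) ↔ Nonempty (G ≃g H) := by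
  obtain ⟨φ⟩ := TT_iso n G
  obtain ⟨ψ⟩ := TT_iso m H
  rw [← pad_iso]
  constructor
  · rintro ⟨θ⟩
    have hG : ∃ a b : Fin (n + 2), a ≠ b := by
      obtain ⟨a, b, h, _⟩ := pad_not_complete G
      exact ⟨a, b, h⟩
    have hH : ∃ a b : Fin (m + 2), a ≠ b := by
      obtain ⟨a, b, h, _⟩ := pad_not_complete H
      exact ⟨a, b, h⟩
    rcases dbl_iso ((φ.symm.trans θ).trans ψ) with ⟨⟨χ⟩⟩ | ⟨⟨χ⟩⟩
    · exact reg_iso hG hH χ
    · exact (reg_compl hG (pad_not_complete H) χ).elim
  · rintro ⟨θ⟩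
    obtain ⟨χ⟩ := reg_map θ
    obtain ⟨χ⟩ := dbl_map χ
    exact ⟨(φ.trans χ).trans ψ.symm⟩

/-- The adjacency matrix of the directed strongly regular graph. -/
def red (M : Mat) : Mat :=
  (dvList (M.length + 2)).map fun u => (dvList (M.length + 2)).map fun w => dB M u w

theorem red_adjMatrix {n : ℕ} (G : SimpleGraph (Fin n)) :
    red (adjMatrix G) = digMatrix (TT n G) := by
  unfold red TT
  rw [length_adjMatrix, digMatrix_listDig]

/-! ### The graph of a directed strongly regular graph -/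

/-- The labels of the vertices of the graph of a digraph. -/
def uvList (n : ℕ) : List (ℕ × ℕ) := ([0, 1, 2] : List ℕ) ×ˢ List.range n

/-- The label of a vertex of the graph of a digraph. -/
def labU {n : ℕ} : UV (Fin n) → ℕ × ℕ
  | .inl u => (0, u)
  | .inr (.inl u) => (1, u)
  | .inr (.inr u) => (2, u)

theorem labU_injective {n : ℕ} : Function.Injective (labU (n := n)) := by
  intro x y h
  rcases x with u | u | u <;> rcases y with v | v | v <;>
    simp [labU, Fin.ext_iff] at h ⊢ <;> exact h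

theorem mem_uvList {n : ℕ} (z : ℕ × ℕ) : z ∈ uvList n ↔ ∃ x : UV (Fin n), labU x = z := by
  obtain ⟨a, u⟩ := z
  unfold uvList
  simp only [List.mem_product, List.mem_cons, List.not_mem_nil, or_false, List.mem_range]
  constructor
  · rintro ⟨h1, h2⟩
    rcases h1 with rfl | rfl | rfl
    · exact ⟨.inl ⟨u, h2⟩, rfl⟩
    · exact ⟨.inr (.inl ⟨u, h2⟩), rfl⟩
    · exact ⟨.inr (.inr ⟨u, h2⟩), rfl⟩
  · rintro ⟨x, hx⟩
    rcases x with v | v | v <;> simp only [labU, Prod.mk.injEq] at hx <;>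
      obtain ⟨rfl, rfl⟩ := hx <;> exact ⟨by simp, v.isLt⟩

theorem nodup_uvList (n : ℕ) : (uvList n).Nodup :=
  List.Nodup.product (by simp) List.nodup_range

/-- The test for adjacency in the graph of a digraph. -/
def uB (M : Mat) (x y : ℕ × ℕ) : Bool :=
  (decide (x.1 = 0) && (decide (y.1 = 0) && !decide (x.2 = y.2))) ||
  ((decide (x.1 = 0) && (decide (y.1 = 1) && ent M x.2 y.2)) ||
  ((decide (x.1 = 1) && (decide (y.1 = 0) && ent M y.2 x.2)) ||
  ((decide (x.1 = 2) && (decide (y.1 < 2) && decide (x.2 = y.2))) ||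
    (decide (x.1 < 2) && (decide (y.1 = 2) && decide (x.2 = y.2))))))

theorem uB_symm (M : Mat) (x y : ℕ × ℕ) : uB M x y = uB M y x := by
  rw [Bool.eq_iff_iff]
  simp only [uB, Bool.or_eq_true, Bool.and_eq_true, decide_eq_true_eq, Bool.not_eq_true',
    decide_eq_false_iff_not]
  have h1 : (y.2 = x.2) ↔ (x.2 = y.2) := eq_comm
  rw [h1]
  tauto

theorem uB_irrefl (M : Mat) (x : ℕ × ℕ) : uB M x x = false := by
  rw [← Bool.not_eq_true]
  simp only [uB, Bool.or_eq_true, Bool.and_eq_true, decide_eq_true_eq, Bool.not_eq_true',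
    decide_eq_false_iff_not]
  rintro (⟨_, _, h⟩ | ⟨h1, h2, _⟩ | ⟨h1, h2, _⟩ | ⟨h1, h2, _⟩ | ⟨h1, h2, _⟩)
  · simp at h
  all_goals omega

/-- The graph of a digraph. -/
noncomputable def UU {n : ℕ} (D : Digraph (Fin n)) : SimpleGraph (Fin (uvList n).length) :=
  listGraph (uvList n) (uB (digMatrix D)) (uB_symm _) (uB_irrefl _)

theorem uB_iff {n : ℕ} (D : Digraph (Fin n)) (x y : UV (Fin n)) :
    uB (digMatrix D) (labU x) (labU y) = true ↔ (und D).Adj x y := by
  rcases x with u | u | u <;> rcases y with v | v | v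
  · simp [uB, labU, Fin.ext_iff]
  · simp [uB, labU, ent_digMatrix]
  · simp [uB, labU, Fin.ext_iff]
  · simp [uB, labU, ent_digMatrix]
  · simp [uB, labU]
  · simp [uB, labU, Fin.ext_iff]
  · simp [uB, labU, Fin.ext_iff]
  · simp [uB, labU, Fin.ext_iff]
  · simp [uB, labU]

theorem UU_iso {n : ℕ} (D : Digraph (Fin n)) : Nonempty (UU D ≃g und D) := by
  obtain ⟨e, he⟩ := exists_equiv (uvList n) (nodup_uvList _) labU labU_injective mem_uvList
  refine ⟨⟨e, fun {i j} => ?_⟩⟩
  rw [← uB_iff]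
  rw [he, he]
  rfl

theorem UU_iff {n m : ℕ} {D : Digraph (Fin n)} {E : Digraph (Fin m)} (hD : HalfDSRG D)
    (hE : HalfDSRG E) : Nonempty (UU D ≃g UU E) ↔ Nonempty (D.Adj ≃r E.Adj) := by
  obtain ⟨φ⟩ := UU_iso D
  obtain ⟨ψ⟩ := UU_iso E
  rw [← und_iff hD hE]
  constructor
  · rintro ⟨θ⟩
    exact ⟨(φ.symm.trans θ).trans ψ⟩
  · rintro ⟨θ⟩
    exact ⟨(φ.trans θ).trans ψ.symm⟩

/-- The adjacency matrix of the graph of a digraph. -/
def ured (M : Mat) : Mat :=
  (uvList M.length).map fun u => (uvList M.length).map fun w => uB M u w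

theorem ured_digMatrix {n : ℕ} (D : Digraph (Fin n)) : ured (digMatrix D) = adjMatrix (UU D) := by
  unfold ured UU
  rw [length_digMatrix, adjMatrix_listGraph]

/-! ### Polynomial time -/

theorem poly_rB : Poly (fun p : Mat × (ℕ × Bool × ℕ) × (ℕ × Bool × ℕ) => rB p.1 p.2.1 p.2.2) := by
  unfold rB
  have h : Poly (fun p : Mat × (ℕ × Bool × ℕ) × (ℕ × Bool × ℕ) =>
      ent p.1 p.2.1.2.2 p.2.2.2.2) :=
    poly_ent.comp (f := fun p : Mat × (ℕ × Bool × ℕ) × (ℕ × Bool × ℕ) =>
      (p.1, p.2.1.2.2, p.2.2.2.2)) (by fun_prop)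
  fun_prop

theorem poly_dB : Poly (fun p : Mat × (Bool × ℕ × Bool × ℕ) × (Bool × ℕ × Bool × ℕ) =>
    dB p.1 p.2.1 p.2.2) := by
  unfold dB
  have h : Poly (fun p : Mat × (Bool × ℕ × Bool × ℕ) × (Bool × ℕ × Bool × ℕ) =>
      rB p.1 p.2.1.2 p.2.2.2) :=
    poly_rB.comp (f := fun p : Mat × (Bool × ℕ × Bool × ℕ) × (Bool × ℕ × Bool × ℕ) =>
      (p.1, p.2.1.2, p.2.2.2)) (by fun_prop)
  fun_prop

theorem poly_uB : Poly (fun p : Mat × (ℕ × ℕ) × (ℕ × ℕ) => uB p.1 p.2.1 p.2.2) := by
  unfold uB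
  have h : Poly (fun p : Mat × (ℕ × ℕ) × (ℕ × ℕ) => ent p.1 p.2.1.2 p.2.2.2) :=
    poly_ent.comp (f := fun p : Mat × (ℕ × ℕ) × (ℕ × ℕ) => (p.1, p.2.1.2, p.2.2.2)) (by fun_prop)
  have h' : Poly (fun p : Mat × (ℕ × ℕ) × (ℕ × ℕ) => ent p.1 p.2.2.2 p.2.1.2) :=
    poly_ent.comp (f := fun p : Mat × (ℕ × ℕ) × (ℕ × ℕ) => (p.1, p.2.2.2, p.2.1.2)) (by fun_prop)
  fun_prop

theorem poly_dvList : Poly (fun M : Mat => dvList (M.length + 2)) := by
  unfold dvList rvList
  have h : Poly (fun M : Mat => List.range (M.length + 2)) :=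
    (upoly_len.add (UPoly.const 2)).range
  exact poly_product (Poly.const _) (Poly.append (poly_product (Poly.const _)
    (poly_product (Poly.const _) h)) (Poly.const _))

theorem poly_uvList : Poly (fun M : Mat => uvList M.length) := by
  unfold uvList
  exact poly_product (Poly.const _) upoly_len.range

theorem poly_red : Poly red := by
  unfold red
  refine Poly.map (F := fun (M : Mat) u => (dvList (M.length + 2)).map fun w => dB M u w)
    poly_dvList ?_
  refine Poly.map (l := fun p : Mat × (Bool × ℕ × Bool × ℕ) => dvList (p.1.length + 2))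
    (F := fun (p : Mat × (Bool × ℕ × Bool × ℕ)) w => dB p.1 p.2 w)
    (poly_dvList.comp (Poly.fst Poly.id)) ?_
  exact poly_dB.comp (f := fun p : (Mat × (Bool × ℕ × Bool × ℕ)) × (Bool × ℕ × Bool × ℕ) =>
    (p.1.1, p.1.2, p.2)) (by fun_prop)

theorem poly_ured : Poly ured := by
  unfold ured
  refine Poly.map (F := fun (M : Mat) u => (uvList M.length).map fun w => uB M u w)
    poly_uvList ?_
  refine Poly.map (l := fun p : Mat × (ℕ × ℕ) => uvList p.1.length)
    (F := fun (p : Mat × (ℕ × ℕ)) w => uB p.1 p.2 w)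
    (poly_uvList.comp (Poly.fst Poly.id)) ?_
  exact poly_uB.comp (f := fun p : (Mat × (ℕ × ℕ)) × (ℕ × ℕ) => (p.1.1, p.1.2, p.2))
    (by fun_prop)

/-! ### The reductions -/

theorem adjMatrix_eq {n m : ℕ} {G : SimpleGraph (Fin n)} {H : SimpleGraph (Fin m)}
    (h : adjMatrix G = adjMatrix H) : Nonempty (G ≃g H) := by
  have h1 := congrArg List.length h
  rw [length_adjMatrix, length_adjMatrix] at h1
  subst h1
  rw [adjMatrix_inj h]
  exact ⟨RelIso.refl _⟩

theorem mem_GI {n m : ℕ} (G : SimpleGraph (Fin n)) (H : SimpleGraph (Fin m)) :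
    bits (adjMatrix G, adjMatrix H) ∈ GI ↔ Nonempty (G ≃g H) := by
  constructor
  · rintro ⟨n', m', G', H', h, ⟨φ⟩⟩
    have h1 := bits_injective h
    rw [Prod.mk.injEq] at h1
    obtain ⟨φ1⟩ := adjMatrix_eq h1.1
    obtain ⟨φ2⟩ := adjMatrix_eq h1.2
    exact ⟨(φ1.trans φ).trans φ2.symm⟩
  · intro h
    exact ⟨n, m, G, H, rfl, h⟩

/-- The pair of digraphs of a string: invalid strings are mapped to a fixed pair. -/
def gmap (x : List Bool) : Mat × Mat :=
  (unbits (Mat × Mat) x).elim (red [], red [[false]]) fun p =>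
    bif valid p.1 && valid p.2 then (red p.1, red p.2) else (red [], red [[false]])

theorem poly_gmap : Poly gmap := by
  unfold gmap
  refine Poly.optElim (h := fun _ (p : Mat × Mat) => bif valid p.1 && valid p.2 then
    (red p.1, red p.2) else (red [], red [[false]])) poly_unbits (Poly.const _) ?_
  refine Poly.cond ?_ ?_ (Poly.const _)
  · exact (poly_valid.comp (Poly.fst (Poly.snd Poly.id))).and
      (poly_valid.comp (Poly.snd (Poly.snd Poly.id)))
  · exact Poly.pair (poly_red.comp (Poly.fst (Poly.snd Poly.id)))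
      (poly_red.comp (Poly.snd (Poly.snd Poly.id)))

theorem gmap_spec (x : List Bool) :
    ∃ (n m : ℕ) (G : SimpleGraph (Fin n)) (H : SimpleGraph (Fin m)),
      gmap x = (digMatrix (TT n G), digMatrix (TT m H)) ∧
      (x ∈ GI ↔ Nonempty ((TT n G).Adj ≃r (TT m H).Adj)) := by
  have e0 : adjMatrix (⊥ : SimpleGraph (Fin 0)) = [] := by simp [adjMatrix]
  have e1 : adjMatrix (⊥ : SimpleGraph (Fin 1)) = [[false]] := by simp [adjMatrix]
  have hbad : x ∉ GI → gmap x = (red [], red [[false]]) →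
      ∃ (n m : ℕ) (G : SimpleGraph (Fin n)) (H : SimpleGraph (Fin m)),
      gmap x = (digMatrix (TT n G), digMatrix (TT m H)) ∧
      (x ∈ GI ↔ Nonempty ((TT n G).Adj ≃r (TT m H).Adj)) := by
    intro hx hg
    refine ⟨0, 1, ⊥, ⊥, ?_, ?_⟩
    · have h0 : red [] = digMatrix (TT 0 (⊥ : SimpleGraph (Fin 0))) := by
        rw [← red_adjMatrix, e0]
      have h1 : red [[false]] = digMatrix (TT 1 (⊥ : SimpleGraph (Fin 1))) := by
        rw [← red_adjMatrix, e1]
      rw [hg, h0, h1]
    · rw [TT_iso_iff]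
      refine iff_of_false hx ?_
      rintro ⟨φ⟩
      exact (φ.symm 0).elim0
  cases hu : unbits (Mat × Mat) x with
  | none =>
    refine hbad ?_ (by unfold gmap; rw [hu]; rfl)
    rintro ⟨n, m, G, H, rfl, _⟩
    rw [unbits_bits] at hu
    exact absurd hu (by simp)
  | some p =>
    obtain ⟨M, M'⟩ := p
    have hx := bits_of_unbits hu
    by_cases hv : valid M = true ∧ valid M' = true
    · obtain ⟨n, G, hG⟩ := (valid_iff M).1 hv.1
      obtain ⟨m, H, hH⟩ := (valid_iff M').1 hv.2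
      refine ⟨n, m, G, H, ?_, ?_⟩
      · unfold gmap
        rw [hu, Option.elim_some, hv.1, hv.2]
        simp only [Bool.and_self, cond_true]
        rw [← hG, ← hH, red_adjMatrix, red_adjMatrix]
      · rw [TT_iso_iff, ← hx, ← hG, ← hH, mem_GI]
    · refine hbad ?_ ?_
      · rintro ⟨n, m, G, H, h, _⟩
        rw [← hx] at h
        have h1 := bits_injective h
        rw [Prod.mk.injEq] at h1
        exact hv ⟨(valid_iff M).2 ⟨n, G, h1.1.symm⟩, (valid_iff M').2 ⟨m, H, h1.2.symm⟩⟩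
      · unfold gmap
        rw [hu, Option.elim_some]
        have : (valid M && valid M') = false := by
          rw [Bool.eq_false_iff]
          intro h
          rw [Bool.and_eq_true] at h
          exact hv h
        simp only [this, cond_false]

/-- The pair of graphs of a pair of digraphs. -/
def umap (x : List Bool) : Mat × Mat :=
  (unbits (Mat × Mat) x).elim ([], []) fun p => (ured p.1, ured p.2)

theorem poly_umap : Poly umap := by
  unfold umap
  refine Poly.optElim (h := fun _ (p : Mat × Mat) => (ured p.1, ured p.2)) poly_unbits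
    (Poly.const _) ?_
  exact Poly.pair (poly_ured.comp (Poly.fst (Poly.snd Poly.id)))
    (poly_ured.comp (Poly.snd (Poly.snd Poly.id)))

theorem umap_spec {n m : ℕ} {D : Digraph (Fin n)} {E : Digraph (Fin m)} (hD : HalfDSRG D)
    (hE : HalfDSRG E) :
    bits (umap (bits (digMatrix D, digMatrix E))) ∈ GI ↔ Nonempty (D.Adj ≃r E.Adj) := by
  unfold umap
  rw [unbits_bits, Option.elim_some, ured_digMatrix, ured_digMatrix, mem_GI, UU_iff hD hE]

/-- The construction on bit strings. -/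
theorem exists_red : ∃ F : List Bool → List Bool, PolyTime F ∧
    ∀ (n : ℕ) (G : SimpleGraph (Fin n)), F (bits (adjMatrix G)) = bits (digMatrix (TT n G)) := by
  refine ⟨_, polyTime_opt (Poly.optMap (o := unbits Mat) (f := fun _ M => red M)
    poly_unbits (poly_red.comp (Poly.snd Poly.id))), fun n G => ?_⟩
  simp only [unbits_bits, Option.map_some, red_adjMatrix]

/-- Isomorphism of directed strongly regular graphs is as hard as graph isomorphism. -/
theorem main :
    (∃ (T : ∀ n, SimpleGraph (Fin n) → Digraph (Fin (8 * n + 18))) (F : List Bool → List Bool),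
      PolyTime F ∧
      (∀ n G, F (bits (adjMatrix G)) = bits (digMatrix (T n G))) ∧
      (∀ n G, HalfDSRG (T n G)) ∧
      ∀ n m G H, Nonempty ((T n G).Adj ≃r (T m H).Adj) ↔ Nonempty (G ≃g H)) ∧
    ((∃ A : List Bool → List Bool, PolyTime A ∧
        ∀ (n m : ℕ) (D : Digraph (Fin n)) (E : Digraph (Fin m)), HalfDSRG D → HalfDSRG E →
          (A (bits (digMatrix D, digMatrix E)) = [true] ↔ Nonempty (D.Adj ≃r E.Adj))) ↔ InP GI) ∧
    ((∀ L : Set (List Bool), InNP L → ∃ g : List Bool → List Bool, PolyTime g ∧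
        ∀ x, ∃ (n m : ℕ) (D : Digraph (Fin n)) (E : Digraph (Fin m)),
          HalfDSRG D ∧ HalfDSRG E ∧ g x = bits (digMatrix D, digMatrix E) ∧
          (x ∈ L ↔ Nonempty (D.Adj ≃r E.Adj))) ↔ NPHard GI) := by
  refine ⟨⟨TT, _, polyTime_opt (Poly.optMap (o := unbits Mat) (f := fun _ M => red M)
    poly_unbits (poly_red.comp (Poly.snd Poly.id))), ?_, half_TT, fun n m G H =>
    TT_iso_iff G H⟩, ?_, ?_⟩
  · intro n G
    simp only [unbits_bits, Option.map_some, red_adjMatrix]
  · constructor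
    · rintro ⟨A, hA, h⟩
      refine ⟨fun x => A (bits (gmap x)), H642R2.TMSim.polyTime_comp hA
        (polyTime_bits poly_gmap), fun x => ?_⟩
      obtain ⟨n, m, G, H, h1, h2⟩ := gmap_spec x
      show x ∈ GI ↔ A (bits (gmap x)) = [true]
      rw [h2, h1, h _ _ _ _ (half_TT _ _) (half_TT _ _)]
    · rintro ⟨A, hA, h⟩
      refine ⟨fun x => A (bits (umap x)), H642R2.TMSim.polyTime_comp hA
        (polyTime_bits poly_umap), fun n m D E hD hE => ?_⟩
      rw [← h, umap_spec hD hE]
  · constructor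
    · intro h L hL
      obtain ⟨g, hg, h1⟩ := h L hL
      have hp : PolyTime (fun x => bits (umap (g x))) :=
        H642R2.TMSim.polyTime_comp (g := fun x => bits (umap x)) (f := g)
          (polyTime_bits poly_umap) hg
      refine ⟨fun x => bits (umap (g x)), hp, fun x => ?_⟩
      obtain ⟨n, m, D, E, hD, hE, h2, h3⟩ := h1 x
      show _ ↔ bits (umap (g x)) ∈ GI
      rw [h2, umap_spec hD hE, h3]
    · intro h L hL
      obtain ⟨f, hf, hfL⟩ := h L hL
      have hp : PolyTime (fun x => bits (gmap (f x))) :=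
        H642R2.TMSim.polyTime_comp (g := fun x => bits (gmap x)) (f := f)
          (polyTime_bits poly_gmap) hf
      refine ⟨fun x => bits (gmap (f x)), hp, fun x => ?_⟩
      obtain ⟨n, m, G, H, h1, h2⟩ := gmap_spec (f x)
      exact ⟨_, _, TT n G, TT m H, half_TT _ _, half_TT _ _, congrArg bits h1,
        (hfL x).trans h2⟩

end Pool.Agent.NPC.DS94
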