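import Pool.Agent.H94.DS.Dbl

/-!
# A regular graph of degree `2 n` with `4 n + 1` vertices for each graph with `n` vertices
-/

set_option autoImplicit false

namespace Pool.Agent.H94.DS

variable {V W : Type*}

/-- The vertices: two copies of `V`, two further sets of the same size, and one further vertex. -/
abbrev RV (V : Type*) : Type _ := (Bool × V) ⊕ (Bool × V) ⊕ Unit

/-- The adjacency of the regular graph. -/
def regAdj (G : SimpleGraph V) : RV V → RV V → Prop
  | .inl (c, u), .inl (d, v) => (c = d ∧ G.Adj u v) ∨ (c ≠ d ∧ u ≠ v ∧ ¬ G.Adj u v)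
  | .inl (c, _), .inr (.inl (d, _)) => c = d
  | .inr (.inl (c, _)), .inl (d, _) => c = d
  | .inr (.inl (c, _)), .inr (.inl (d, _)) => c ≠ d
  | .inl _, .inr (.inr _) => True
  | .inr (.inr _), .inl _ => True
  | .inr (.inl _), .inr (.inr _) => False
  | .inr (.inr _), .inr (.inl _) => False
  | .inr (.inr _), .inr (.inr _) => False

theorem regAdj_symm (G : SimpleGraph V) {x y : RV V} (h : regAdj G x y) : regAdj G y x := by
  rcases x with ⟨c, u⟩ | ⟨c, u⟩ | x <;> rcases y with ⟨d, v⟩ | ⟨d, v⟩ | y <;>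
    simp only [regAdj] at h ⊢
  · rcases h with ⟨rfl, h⟩ | ⟨h1, h2, h3⟩
    · exact Or.inl ⟨rfl, h.symm⟩
    · exact Or.inr ⟨Ne.symm h1, Ne.symm h2, fun h => h3 h.symm⟩
  · exact h.symm
  · exact h.symm
  · exact fun e => h e.symm

/-- The regular graph. -/
def reg (G : SimpleGraph V) : SimpleGraph (RV V) where
  Adj := regAdj G
  symm := ⟨fun _ _ h => regAdj_symm G h⟩
  loopless := ⟨fun x h => by
    rcases x with ⟨c, u⟩ | ⟨c, u⟩ | x <;> simp [regAdj] at h⟩

@[simp] theorem reg_tt (G : SimpleGraph V) (c d : Bool) (u v : V) :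
    (reg G).Adj (.inl (c, u)) (.inl (d, v)) ↔ (c = d ∧ G.Adj u v) ∨ (c ≠ d ∧ u ≠ v ∧ ¬ G.Adj u v) :=
  Iff.rfl

@[simp] theorem reg_tp (G : SimpleGraph V) (c d : Bool) (u v : V) :
    (reg G).Adj (.inl (c, u)) (.inr (.inl (d, v))) ↔ c = d := Iff.rfl

@[simp] theorem reg_pt (G : SimpleGraph V) (c d : Bool) (u v : V) :
    (reg G).Adj (.inr (.inl (c, u))) (.inl (d, v)) ↔ c = d := Iff.rfl

@[simp] theorem reg_pp (G : SimpleGraph V) (c d : Bool) (u v : V) :
    (reg G).Adj (.inr (.inl (c, u))) (.inr (.inl (d, v))) ↔ c ≠ d := Iff.rfl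

@[simp] theorem reg_tz (G : SimpleGraph V) (c : Bool) (u : V) (z : Unit) :
    (reg G).Adj (.inl (c, u)) (.inr (.inr z)) ↔ True := Iff.rfl

@[simp] theorem reg_zt (G : SimpleGraph V) (c : Bool) (u : V) (z : Unit) :
    (reg G).Adj (.inr (.inr z)) (.inl (c, u)) ↔ True := Iff.rfl

@[simp] theorem reg_pz (G : SimpleGraph V) (c : Bool) (u : V) (z : Unit) :
    (reg G).Adj (.inr (.inl (c, u))) (.inr (.inr z)) ↔ False := Iff.rfl

@[simp] theorem reg_zp (G : SimpleGraph V) (c : Bool) (u : V) (z : Unit) :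
    (reg G).Adj (.inr (.inr z)) (.inr (.inl (c, u))) ↔ False := Iff.rfl

@[simp] theorem reg_zz (G : SimpleGraph V) (y z : Unit) :
    (reg G).Adj (.inr (.inr z)) (.inr (.inr y)) ↔ False := Iff.rfl

theorem card_RV [Fintype V] : Fintype.card (RV V) = 2 * (2 * Fintype.card V) + 1 := by
  simp only [Fintype.card_sum, Fintype.card_prod, Fintype.card_bool, Fintype.card_unit]
  ring

/-- It is regular of degree `2 n`. -/
theorem reg_degree [Fintype V] (G : SimpleGraph V) (x : RV V) :
    (∑ y, ind ((reg G).Adj x y)) = 2 * Fintype.card V := by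
  rw [Fintype.sum_sum_type, Fintype.sum_sum_type, Fintype.sum_prod_type, Fintype.sum_prod_type,
    Fintype.sum_bool, Fintype.sum_bool]
  rcases x with ⟨c, u⟩ | ⟨c, u⟩ | x
  · have h := card_split G u
    cases c
    · simp
      simp only [ne_eq] at h
      omega
    · simp
      simp only [ne_eq] at h
      omega
  · cases c
    · simp
      omega
    · simp
      omega
  · simp
    omega

/-- Isomorphic graphs have isomorphic regular graphs. -/
theorem reg_map {G : SimpleGraph V} {H : SimpleGraph W} (φ : G ≃g H) :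
    Nonempty (reg G ≃g reg H) := by
  refine ⟨⟨Equiv.sumCongr (Equiv.prodCongr (Equiv.refl _) φ.toEquiv)
    (Equiv.sumCongr (Equiv.prodCongr (Equiv.refl _) φ.toEquiv) (Equiv.refl _)), fun {x y} => ?_⟩⟩
  have h1 : ∀ i j, H.Adj (φ i) (φ j) ↔ G.Adj i j := fun i j => φ.map_rel_iff
  rcases x with ⟨c, u⟩ | ⟨c, u⟩ | x <;> rcases y with ⟨d, v⟩ | ⟨d, v⟩ | y <;> simp [h1]

/-! ### Recovering the graph -/

/-- Some other vertex has the same neighbours. -/
def HasTwin {U : Type*} (X : SimpleGraph U) (x : U) : Prop :=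
  ∃ y, y ≠ x ∧ ∀ w, X.Adj x w ↔ X.Adj y w

theorem hasTwin_iff (G : SimpleGraph V) (hV : ∃ a b : V, a ≠ b) (x : RV V) :
    HasTwin (reg G) x ↔ ∃ c u, x = .inr (.inl (c, u)) := by
  constructor
  · rintro ⟨y, hne, h⟩
    rcases x with ⟨c, u⟩ | ⟨c, u⟩ | x
    · exfalso
      rcases y with ⟨d, v⟩ | ⟨d, v⟩ | y
      · by_cases hcd : c = d
        · subst hcd
          have huv : u ≠ v := fun e => hne (by rw [e])
          by_cases hG : G.Adj u v
          · have h1 := h (.inl (c, v))
            simp [hG] at h1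
          · have h1 := h (.inl (!c, v))
            simp [hG, huv] at h1
        · have h1 := h (.inr (.inl (c, u)))
          simp at h1
          exact hcd h1.symm
      · by_cases hcd : c = d
        · subst hcd
          have h1 := h (.inr (.inl (!c, v)))
          simp at h1
        · have h1 := h (.inl (d, u))
          simp [hcd] at h1
      · have h1 := h (.inr (.inl (c, u)))
        simp at h1
    · exact ⟨c, u, rfl⟩
    · exfalso
      rcases y with ⟨d, v⟩ | ⟨d, v⟩ | y
      · have h1 := h (.inr (.inl (d, v)))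
        simp at h1
      · have h1 := h (.inr (.inl (!d, v)))
        simp at h1
      · exact hne rfl
  · rintro ⟨c, u, rfl⟩
    obtain ⟨v, hv⟩ : ∃ v, v ≠ u := by
      obtain ⟨a, b, hab⟩ := hV
      by_cases ha : a = u
      · exact ⟨b, fun e => hab (ha.trans e.symm)⟩
      · exact ⟨a, ha⟩
    refine ⟨.inr (.inl (c, v)), by simpa using hv, fun w => ?_⟩
    rcases w with ⟨d, w⟩ | ⟨d, w⟩ | w <;> simp

theorem hasTwin_of_iso {U U' : Type*} {X : SimpleGraph U} {Y : SimpleGraph U'} (φ : X ≃g Y) {x : U}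
    (h : HasTwin X x) : HasTwin Y (φ x) := by
  obtain ⟨y, hne, h⟩ := h
  refine ⟨φ y, fun e => hne (φ.injective e), fun w => ?_⟩
  obtain ⟨w, rfl⟩ := φ.surjective w
  rw [φ.map_rel_iff, φ.map_rel_iff, h]

theorem hasTwin_iso {U U' : Type*} {X : SimpleGraph U} {Y : SimpleGraph U'} (φ : X ≃g Y) (x : U) :
    HasTwin X x ↔ HasTwin Y (φ x) := by
  refine ⟨hasTwin_of_iso φ, fun h => ?_⟩
  have := hasTwin_of_iso φ.symm h
  simpa using this

/-- a neighbour of a vertex with a twin, which has no twin -/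
theorem exists_inl (G : SimpleGraph V) (hV : ∃ a b : V, a ≠ b) {d : Bool} {v : V} {x : RV V}
    (h1 : (reg G).Adj x (.inr (.inl (d, v)))) (h2 : ¬ HasTwin (reg G) x) :
    ∃ u, x = .inl (d, u) := by
  rw [hasTwin_iff G hV] at h2
  rcases x with ⟨c, u⟩ | ⟨c, u⟩ | x
  · simp at h1
    subst h1
    exact ⟨u, rfl⟩
  · exact absurd ⟨c, u, rfl⟩ h2
  · simp at h1

/-- If the regular graphs are isomorphic then so are the graphs. -/
theorem reg_iso {G : SimpleGraph V} {H : SimpleGraph W} (hV : ∃ a b : V, a ≠ b)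
    (hW : ∃ a b : W, a ≠ b) (φ : reg G ≃g reg H) : Nonempty (G ≃g H) := by
  obtain ⟨a, _, _⟩ := id hV
  obtain ⟨d, b, hb⟩ : ∃ d b, φ (.inr (.inl (false, a))) = .inr (.inl (d, b)) := by
    rw [← hasTwin_iff H hW, ← hasTwin_iso φ, hasTwin_iff G hV]
    exact ⟨false, a, rfl⟩
  have hT : ∀ c u, ¬ HasTwin (reg G) (.inl (c, u)) := fun c u => by
    rw [hasTwin_iff G hV]
    simp
  have hT' : ∀ c u, ¬ HasTwin (reg H) (.inl (c, u)) := fun c u => by
    rw [hasTwin_iff H hW]
    simp
  have h1 : ∀ u, ∃ v, φ (.inl (false, u)) = .inl (d, v) := by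
    intro u
    refine exists_inl (G := H) hW (v := b) ?_ ?_
    · rw [← hb, φ.map_rel_iff]
      simp
    · rw [← hasTwin_iso φ]
      exact hT _ _
  choose σ hσ using h1
  have hbij : Function.Bijective σ := by
    constructor
    · intro u v huv
      have h2 : φ (.inl (false, u)) = φ (.inl (false, v)) := by rw [hσ, hσ, huv]
      have h3 := φ.injective h2
      simpa using h3
    · intro w
      obtain ⟨u, hu⟩ : ∃ u, φ.symm (.inl (d, w)) = .inl (false, u) := by
        refine exists_inl (G := G) hV (v := a) ?_ ?_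
        · rw [← φ.map_rel_iff, hb]
          simp
        · rw [hasTwin_iso φ]
          simpa using hT' d w
      refine ⟨u, ?_⟩
      have h2 := hσ u
      rw [← hu] at h2
      simpa using h2.symm
  refine ⟨⟨Equiv.ofBijective σ hbij, fun {u v} => ?_⟩⟩
  have h2 := φ.map_rel_iff (a := Sum.inl (false, u)) (b := Sum.inl (false, v))
  rw [hσ, hσ] at h2
  simpa using h2

/-- Two adjacent vertices of the regular graph with the same further neighbours. -/
theorem closedTwin (G : SimpleGraph V) {x y : RV V} (hxy : (reg G).Adj x y)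
    (h : ∀ w, w ≠ x → w ≠ y → ((reg G).Adj x w ↔ (reg G).Adj y w)) :
    ∃ c u v, x = .inl (c, u) ∧ y = .inl (c, v) := by
  rcases x with ⟨c, u⟩ | ⟨c, u⟩ | x <;> rcases y with ⟨d, v⟩ | ⟨d, v⟩ | y
  · by_cases hcd : c = d
    · subst hcd
      exact ⟨c, u, v, rfl, rfl⟩
    · have h1 := h (.inr (.inl (c, u))) (by simp) (by simp)
      simp at h1
      exact absurd h1.symm hcd
  · exfalso
    simp at hxy
    subst hxy
    have h1 := h (.inr (.inl (!c, v))) (by simp) (by simp)
    simp at h1
  · exfalso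
    have h1 := h (.inr (.inl (c, u))) (by simp) (by simp)
    simp at h1
  · exfalso
    simp at hxy
    subst hxy
    have h1 := h (.inr (.inl (!c, v))) (by simp) (by simp)
    simp at h1
  · exfalso
    simp at hxy
    have h1 := h (.inl (c, u)) (by simp) (by simp)
    simp at h1
    exact hxy h1.symm
  · simp at hxy
  · exfalso
    have h1 := h (.inr (.inl (d, v))) (by simp) (by simp)
    simp at h1
  · simp at hxy
  · simp at hxy

/-- The regular graph of `G` is not isomorphic to the complement of the regular graph of `H`, if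
`H` has as many vertices as `G`, at least two, and is not complete. -/
theorem reg_compl [Fintype V] [Fintype W] {G : SimpleGraph V} {H : SimpleGraph W}
    (hV : ∃ a b : V, a ≠ b) (hW : ∃ a b : W, a ≠ b ∧ ¬ H.Adj a b) (φ : reg G ≃g (reg H)ᶜ) :
    False := by
  have hcard : Fintype.card V = Fintype.card W := by
    have h1 := Fintype.card_congr φ.toEquiv
    rw [card_RV, card_RV] at h1
    omega
  -- the images of the vertices with twins
  have key : ∀ u v : V, u ≠ v → ∃ c x y, φ (.inr (.inl (false, u))) = .inl (c, x) ∧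
      φ (.inr (.inl (false, v))) = .inl (c, y) ∧ H.Adj x y := by
    intro u v huv
    have hne : φ (.inr (.inl (false, u))) ≠ φ (.inr (.inl (false, v))) := by
      intro e
      have := φ.injective e
      simp at this
      exact huv this
    have h1 : ∀ w, (reg H)ᶜ.Adj (φ (.inr (.inl (false, u)))) w ↔
        (reg H)ᶜ.Adj (φ (.inr (.inl (false, v)))) w := by
      intro w
      obtain ⟨w, rfl⟩ := φ.surjective w
      rw [φ.map_rel_iff, φ.map_rel_iff]
      rcases w with ⟨d, w⟩ | ⟨d, w⟩ | w <;> simp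
    have h2 : (reg H).Adj (φ (.inr (.inl (false, u)))) (φ (.inr (.inl (false, v)))) := by
      have h3 := h1 (φ (.inr (.inl (false, v))))
      simp only [SimpleGraph.compl_adj] at h3
      by_contra h4
      exact (h3.1 ⟨hne, h4⟩).1 rfl
    obtain ⟨c, x, y, hx, hy⟩ := closedTwin H h2 (fun w hw1 hw2 => by
      have h3 := h1 w
      simp only [SimpleGraph.compl_adj] at h3
      have h4 := hw1.symm
      have h5 := hw2.symm
      tauto)
    refine ⟨c, x, y, hx, hy, ?_⟩
    rw [hx, hy] at h2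
    simpa using h2
  have h1 : ∀ u : V, ∃ c x, φ (.inr (.inl (false, u))) = .inl (c, x) := by
    intro u
    obtain ⟨v, hv⟩ : ∃ v, v ≠ u := by
      obtain ⟨a, b, hab⟩ := hV
      by_cases ha : a = u
      · exact ⟨b, fun e => hab (ha.trans e.symm)⟩
      · exact ⟨a, ha⟩
    obtain ⟨c, x, _, hx, _⟩ := key u v hv.symm
    exact ⟨c, x, hx⟩
  choose c h hc using h1
  have hinj : Function.Injective h := by
    intro u v huv
    by_contra hne
    obtain ⟨d, x, y, hx, hy, hxy⟩ := key u v hne
    rw [hc] at hx hy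
    simp only [Sum.inl.injEq, Prod.mk.injEq] at hx hy
    rw [← hx.2, ← hy.2, huv] at hxy
    exact hxy.ne rfl
  have hsurj : Function.Surjective h :=
    ((Fintype.bijective_iff_injective_and_card h).2 ⟨hinj, hcard⟩).2
  obtain ⟨a, b, hab, hH⟩ := hW
  obtain ⟨u, rfl⟩ := hsurj a
  obtain ⟨v, rfl⟩ := hsurj b
  obtain ⟨d, x, y, hx, hy, hxy⟩ := key u v (fun e => hab (by rw [e]))
  rw [hc] at hx hy
  simp only [Sum.inl.injEq, Prod.mk.injEq] at hx hy
  rw [← hx.2, ← hy.2] at hxy
  exact hH hxy

end Pool.Agent.H94.DS
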