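import Pool.Agent.H94.DS.WLDefs
import Pool.Agent.H94.DS.Enc

/-!
# Strategies for the Weisfeiler-Leman method, and their transfer
-/

set_option autoImplicit false

namespace Pool.Agent.H94.DS

open Pool.Agent.W185.SRG (Col wl isoType WLEquivalent)

/-- A winning strategy in the bijection game with `k` pebbles. -/
def Strat {V W : Type} (k : ℕ) (D : Digraph V) (E : Digraph W) : Prop :=
  ∃ R : (Fin k → V) → (Fin k → W) → Prop, (∃ S S', R S S') ∧
    (∀ S S', R S S' → ∀ i j, (S i = S j ↔ S' i = S' j) ∧
      (D.Adj (S i) (S j) ↔ E.Adj (S' i) (S' j))) ∧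
    (∀ S S', R S S' → ∃ β : V ≃ W, ∀ i x, R (Function.update S i x) (Function.update S' i (β x)))

theorem exists_equiv_of_map_eq {V W C : Type} [Fintype V] [Fintype W] (f : V → C) (g : W → C)
    (h : (Finset.univ : Finset V).val.map f = (Finset.univ : Finset W).val.map g) :
    ∃ β : V ≃ W, ∀ x, f x = g (β x) := by
  classical
  have h1 : ∀ c, Nonempty ({x // f x = c} ≃ {y // g y = c}) := by
    intro c
    refine ⟨Fintype.equivOfCardEq ?_⟩
    have h2 := congrArg (Multiset.count c) h
    rw [Multiset.count_map, Multiset.count_map] at h2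
    rw [Fintype.card_subtype, Fintype.card_subtype]
    have e1 : (Finset.univ.filter fun x => f x = c).card =
        Multiset.card (Multiset.filter (fun a => c = f a) (Finset.univ : Finset V).val) := by
      show Multiset.card (Multiset.filter _ _) = _
      congr 1
      exact Multiset.filter_congr fun x _ => eq_comm
    have e2 : (Finset.univ.filter fun x => g x = c).card =
        Multiset.card (Multiset.filter (fun a => c = g a) (Finset.univ : Finset W).val) := by
      show Multiset.card (Multiset.filter _ _) = _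
      congr 1
      exact Multiset.filter_congr fun x _ => eq_comm
    rw [e1, e2, h2]
  let e := fun c => (h1 c).some
  refine ⟨((Equiv.sigmaFiberEquiv f).symm.trans (Equiv.sigmaCongrRight e)).trans
    (Equiv.sigmaFiberEquiv g), fun x => ?_⟩
  exact ((e (f x)) ⟨x, rfl⟩).2.symm

section

variable {V W : Type} [Fintype V] [Fintype W]

theorem wlD_mono {k : ℕ} {D : Digraph V} {E : Digraph W} {S : Fin k → V} {S' : Fin k → W} {t s : ℕ}
    (hst : s ≤ t) (h : wlD D k t S = wlD E k t S') : wlD D k s S = wlD E k s S' := by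
  induction t, hst using Nat.le_induction with
  | base => exact h
  | succ t _ ih => exact ih (congrArg Prod.fst h)

/-- If the method does not distinguish the digraphs then there is a winning strategy. -/
theorem Strat.of_wl {k : ℕ} {D : Digraph V} {E : Digraph W} (hV : Nonempty V)
    (h : WLEquivalentD k D E) : Strat k D E := by
  classical
  obtain ⟨ψ, hψ⟩ := h
  refine ⟨fun S S' => ∀ t, wlD D k t S = wlD E k t S', ?_, ?_, ?_⟩
  · obtain ⟨v⟩ := hV
    exact ⟨fun _ => v, ψ fun _ => v, fun t => hψ t _⟩
  · intro S S' hS i j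
    have h0 := hS 0
    have h1 := congrFun (congrFun (congrArg Prod.fst h0) i) j
    have h2 := congrFun (congrFun (congrArg Prod.snd h0) i) j
    exact ⟨iff_of_eq h1, iff_of_eq h2⟩
  · intro S S' hS
    have h1 : ∀ t, ∃ β : V ≃ W, ∀ i x, wlD D k t (Function.update S i x) =
        wlD E k t (Function.update S' i (β x)) := by
      intro t
      have h2 := congrArg Prod.snd (hS (t + 1))
      obtain ⟨β, hβ⟩ := exists_equiv_of_map_eq _ _ h2
      refine ⟨β, fun i x => ?_⟩
      have h3 := congrFun (hβ x) i
      convert h3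
    by_contra hcon
    push Not at hcon
    choose i x t ht using hcon
    obtain ⟨β, hβ⟩ := h1 (Finset.univ.sup t)
    exact ht β (wlD_mono (Finset.le_sup (Finset.mem_univ β)) (hβ _ _))

theorem Strat.wl_eq {k : ℕ} {D : Digraph V} {E : Digraph W}
    {R : (Fin k → V) → (Fin k → W) → Prop}
    (h1 : ∀ S S', R S S' → ∀ i j, (S i = S j ↔ S' i = S' j) ∧
      (D.Adj (S i) (S j) ↔ E.Adj (S' i) (S' j)))
    (h2 : ∀ S S', R S S' → ∃ β : V ≃ W, ∀ i x,
      R (Function.update S i x) (Function.update S' i (β x))) (t : ℕ) :
    ∀ S S', R S S' → wlD D k t S = wlD E k t S' := by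
  induction t with
  | zero =>
    intro S S' h
    refine Prod.ext ?_ ?_
    · funext i j
      exact propext (h1 S S' h i j).1
    · funext i j
      exact propext (h1 S S' h i j).2
  | succ t ih =>
    intro S S' h
    refine Prod.ext (ih S S' h) ?_
    obtain ⟨β, hβ⟩ := h2 S S' h
    show (Finset.univ : Finset V).val.map _ = (Finset.univ : Finset W).val.map _
    have e1 : (Finset.univ : Finset W).val = (Finset.univ : Finset V).val.map β := by
      have := congrArg Finset.val (Finset.map_univ_equiv β)
      rw [← this]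
      rfl
    rw [e1, Multiset.map_map]
    refine Multiset.map_congr rfl fun x _ => ?_
    funext i
    rw [ih _ _ (hβ i x)]
    simp only [Function.comp_apply]

/-- the first `m` coordinates are given, the other ones are those of `S` -/
def ext {V : Type} {k : ℕ} (S : Fin k → V) (m : ℕ) (f : Fin m → V) (i : Fin k) : V :=
  if h : i.val < m then f ⟨i.val, h⟩ else S i

theorem ext_snoc {V : Type} {k : ℕ} (S : Fin k → V) (m : ℕ) (hm : m < k) (f : Fin m → V) (x : V) :
    ext S (m + 1) (Fin.snoc (α := fun _ => V) f x) = Function.update (ext S m f) ⟨m, hm⟩ x := by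
  funext i
  by_cases hi : i = ⟨m, hm⟩
  · subst hi
    rw [Function.update_self]
    unfold ext
    rw [dif_pos (by simp)]
    exact Fin.snoc_last (α := fun _ => V) x f
  · rw [Function.update_of_ne hi]
    unfold ext
    by_cases h : i.val < m
    · rw [dif_pos h, dif_pos (by omega)]
      exact Fin.snoc_castSucc (α := fun _ => V) x f ⟨i.val, h⟩
    · have h2 : ¬ i.val < m + 1 := by
        intro h3
        exact hi (Fin.ext (by show i.val = m; omega))
      rw [dif_neg h, dif_neg h2]

/-- A winning strategy shows that the method does not distinguish the digraphs. -/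
theorem Strat.wl {k : ℕ} {D : Digraph V} {E : Digraph W} (h : Strat k D E) :
    WLEquivalentD k D E := by
  obtain ⟨R, ⟨S0, S0', h0⟩, h1, h2⟩ := h
  have key : ∀ m ≤ k, ∃ ψ : (Fin m → V) ≃ (Fin m → W), ∀ f, R (ext S0 m f) (ext S0' m (ψ f)) := by
    intro m
    induction m with
    | zero =>
      intro _
      refine ⟨⟨fun _ i => i.elim0, fun _ i => i.elim0, fun f => ?_, fun f => ?_⟩, fun f => ?_⟩
      · funext i
        exact i.elim0
      · funext i
        exact i.elim0
      · have e1 : ext S0 0 f = S0 := by
          funext i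
          unfold ext
          rw [dif_neg (by omega)]
        have e2 : ∀ g, ext S0' 0 g = S0' := by
          intro g
          funext i
          unfold ext
          rw [dif_neg (by omega)]
        rw [e1, e2]
        exact h0
    | succ m ih =>
      intro hm
      obtain ⟨ψ, hψ⟩ := ih (by omega)
      have h3 : ∀ f, ∃ β : V ≃ W, ∀ i x, R (Function.update (ext S0 m f) i x)
          (Function.update (ext S0' m (ψ f)) i (β x)) := fun f => h2 _ _ (hψ f)
      choose β hβ using h3
      let sV : (Fin m → V) × V ≃ (Fin (m + 1) → V) :=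
        (Equiv.prodComm _ _).trans (Fin.snocEquiv (fun _ => V))
      let sW : (Fin m → W) × W ≃ (Fin (m + 1) → W) :=
        (Equiv.prodComm _ _).trans (Fin.snocEquiv (fun _ => W))
      refine ⟨(sV.symm.trans (Equiv.prodShear ψ β)).trans sW, fun f => ?_⟩
      obtain ⟨⟨g, x⟩, rfl⟩ := sV.surjective f
      have e1 : (((sV.symm.trans (Equiv.prodShear ψ β)).trans sW) (sV (g, x))) =
          Fin.snoc (α := fun _ => W) (ψ g) (β g x) := by
        simp only [Equiv.trans_apply, Equiv.symm_apply_apply]
        rfl
      have e2 : sV (g, x) = Fin.snoc (α := fun _ => V) g x := rfl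
      rw [e1, e2, ext_snoc _ _ (by omega), ext_snoc _ _ (by omega)]
      exact hβ g _ x
  obtain ⟨ψ, hψ⟩ := key k le_rfl
  refine ⟨ψ, fun t S => ?_⟩
  have e1 : ∀ {U : Type} (T f : Fin k → U), ext T k f = f := by
    intro U T f
    funext i
    unfold ext
    rw [dif_pos i.isLt]
  have h3 := hψ S
  rw [e1, e1] at h3
  exact Strat.wl_eq h1 h2 t _ _ h3

theorem wl_eq_wlD (G : SimpleGraph V) (k t : ℕ) (S : Fin k → V) :
    Pool.Agent.W185.SRG.wl G k t S = wlD ⟨G.Adj⟩ k t S := by
  induction t generalizing S with
  | zero => rfl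
  | succ t ih =>
    refine Prod.ext (ih S) ?_
    refine Multiset.map_congr rfl fun x _ => ?_
    funext i
    rw [ih]

theorem wlEquivalentD_of {k : ℕ} {G : SimpleGraph V} {H : SimpleGraph W}
    (h : WLEquivalent k G H) : WLEquivalentD k ⟨G.Adj⟩ ⟨H.Adj⟩ := by
  obtain ⟨ψ, hψ⟩ := h
  refine ⟨ψ, fun t S => ?_⟩
  rw [← wl_eq_wlD, ← wl_eq_wlD, hψ]

end

/-- The transfer of strategies. The vertices `y` of the new digraph have labels and are over
vertices of the old digraph, or over no vertex. -/
theorem Strat.transfer {V W Y Z L : Type} {k : ℕ} {D : Digraph V} {E : Digraph W} {D' : Digraph Y}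
    {E' : Digraph Z} (h : Strat k D E) (labY : Y → L) (ptY : Y → Option V) (labZ : Z → L)
    (ptZ : Z → Option W) (y0 : Y)
    (hinjY : ∀ y y', labY y = labY y' → ptY y = ptY y' → y = y')
    (hinjZ : ∀ y y', labZ y = labZ y' → ptZ y = ptZ y' → y = y')
    (lift : ∀ β : V ≃ W, ∃ B : Y ≃ Z, ∀ y, labZ (B y) = labY y ∧ ptZ (B y) = (ptY y).map β)
    (hs : ∀ y y' z z', labZ z = labY y → labZ z' = labY y' →
      (∀ v v' w w', ptY y = some v → ptY y' = some v' → ptZ z = some w → ptZ z' = some w' →
        ((v = v' ↔ w = w') ∧ (D.Adj v v' ↔ E.Adj w w'))) →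
      ((ptY y = none) ↔ (ptZ z = none)) → ((ptY y' = none) ↔ (ptZ z' = none)) →
      (D'.Adj y y' ↔ E'.Adj z z')) : Strat k D' E' := by
  obtain ⟨R, ⟨S0, S0', h0⟩, h1, h2⟩ := h
  refine ⟨fun T T' => ∃ S S', R S S' ∧ ∀ i, labZ (T' i) = labY (T i) ∧
    ((ptY (T i) = none ∧ ptZ (T' i) = none) ∨ (ptY (T i) = some (S i) ∧ ptZ (T' i) = some (S' i))),
    ?_, ?_, ?_⟩
  · obtain ⟨β, hβ⟩ := h2 S0 S0' h0
    obtain ⟨B, hB⟩ := lift β
    rcases hy : ptY y0 with _ | v
    · refine ⟨fun _ => y0, fun _ => B y0, S0, S0', h0, fun i => ⟨(hB y0).1, Or.inl ⟨hy, ?_⟩⟩⟩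
      rw [(hB y0).2, hy]
      rfl
    · -- move all pebbles to `v`
      have h3 : ∀ l : List (Fin k), ∃ S S', R S S' ∧ ∀ i ∈ l, S i = v := by
        intro l
        induction l with
        | nil => exact ⟨S0, S0', h0, fun i hi => absurd hi (by simp)⟩
        | cons a l ih =>
          obtain ⟨S, S', hS, hw⟩ := ih
          obtain ⟨β, hβ⟩ := h2 S S' hS
          refine ⟨_, _, hβ a v, fun i hi => ?_⟩
          by_cases hia : i = a
          · subst hia
            rw [Function.update_self]
          · rw [Function.update_of_ne hia]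
            exact hw i (List.mem_of_ne_of_mem hia hi)
      obtain ⟨S, S', hS, hw⟩ := h3 (List.finRange k)
      have hSv : ∀ i, S i = v := fun i => hw i (List.mem_finRange i)
      have h4 : ∀ i j, S' i = S' j := fun i j => (h1 S S' hS i j).1.1 (by rw [hSv, hSv])
      by_cases hk : Nonempty (Fin k)
      · obtain ⟨i0⟩ := hk
        obtain ⟨β, hβ⟩ : ∃ β : V ≃ W, β v = S' i0 := by
          obtain ⟨β, _⟩ := h2 S S' hS
          classical
          exact ⟨β.trans (Equiv.swap (β v) (S' i0)), by simp⟩
        obtain ⟨B, hB⟩ := lift β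
        refine ⟨fun _ => y0, fun _ => B y0, S, S', hS, fun i => ⟨(hB y0).1, Or.inr ⟨?_, ?_⟩⟩⟩
        · rw [hSv i]
          exact hy
        · rw [(hB y0).2, hy, Option.map_some, hβ, h4 i i0]
      · refine ⟨fun _ => y0, fun _ => B y0, S, S', hS, fun i => ?_⟩
        exact (hk ⟨i⟩).elim
  · rintro T T' ⟨S, S', hS, hT⟩ i j
    have key : ∀ v v' w w', ptY (T i) = some v → ptY (T j) = some v' → ptZ (T' i) = some w →
        ptZ (T' j) = some w' → ((v = v' ↔ w = w') ∧ (D.Adj v v' ↔ E.Adj w w')) := by
      intro v v' w w' e1 e2 e3 e4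
      rcases (hT i).2 with ⟨h3, _⟩ | ⟨h3, h4⟩
      · rw [h3] at e1
        exact absurd e1 (by simp)
      · rcases (hT j).2 with ⟨h5, _⟩ | ⟨h5, h6⟩
        · rw [h5] at e2
          exact absurd e2 (by simp)
        · rw [e1] at h3
          rw [e3] at h4
          rw [e2] at h5
          rw [e4] at h6
          rw [Option.some.inj h3, Option.some.inj h4, Option.some.inj h5, Option.some.inj h6]
          exact h1 S S' hS i j
    have hn : ∀ i, (ptY (T i) = none) ↔ (ptZ (T' i) = none) := by
      intro i
      rcases (hT i).2 with ⟨h3, h4⟩ | ⟨h3, h4⟩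
      · rw [h3, h4]
        simp
      · rw [h3, h4]
        simp
    refine ⟨⟨fun e => ?_, fun e => ?_⟩, hs _ _ _ _ (hT i).1 (hT j).1 key (hn i) (hn j)⟩
    · refine hinjZ _ _ ?_ ?_
      · rw [(hT i).1, (hT j).1, e]
      · rcases h3 : ptZ (T' i) with _ | w
        · have h4 := (hn i).2 h3
          rw [e] at h4
          exact ((hn j).1 h4).symm
        · rcases h5 : ptZ (T' j) with _ | w'
          · have h6 := (hn j).2 h5
            rw [← e] at h6
            rw [(hn i).1 h6] at h3
            exact h3.symm
          · rcases h7 : ptY (T i) with _ | v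
            · rw [(hn i).1 h7] at h3
              exact absurd h3 (by simp)
            · have h8 : ptY (T j) = some v := by rw [← e, h7]
              rw [(key v v w w' h7 h8 h3 h5).1.1 rfl]
    · refine hinjY _ _ ?_ ?_
      · rw [← (hT i).1, ← (hT j).1, e]
      · rcases h3 : ptY (T i) with _ | v
        · have h4 := (hn i).1 h3
          rw [e] at h4
          exact ((hn j).2 h4).symm
        · rcases h5 : ptY (T j) with _ | v'
          · have h6 := (hn j).1 h5
            rw [← e] at h6
            rw [(hn i).2 h6] at h3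
            exact h3.symm
          · rcases h7 : ptZ (T' i) with _ | w
            · rw [(hn i).2 h7] at h3
              exact absurd h3 (by simp)
            · have h8 : ptZ (T' j) = some w := by rw [← e, h7]
              rw [(key v v' w w h3 h5 h7 h8).1.2 rfl]
  · rintro T T' ⟨S, S', hS, hT⟩
    obtain ⟨β, hβ⟩ := h2 S S' hS
    obtain ⟨B, hB⟩ := lift β
    refine ⟨B, fun i y => ?_⟩
    rcases hy : ptY y with _ | v
    · refine ⟨S, S', hS, fun j => ?_⟩
      by_cases hj : j = i
      · subst hj
        rw [Function.update_self, Function.update_self]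
        refine ⟨(hB y).1, Or.inl ⟨hy, ?_⟩⟩
        rw [(hB y).2, hy]
        rfl
      · rw [Function.update_of_ne hj, Function.update_of_ne hj]
        exact hT j
    · refine ⟨_, _, hβ i v, fun j => ?_⟩
      by_cases hj : j = i
      · subst hj
        rw [Function.update_self, Function.update_self, Function.update_self,
          Function.update_self]
        refine ⟨(hB y).1, Or.inr ⟨hy, ?_⟩⟩
        rw [(hB y).2, hy]
        rfl
      · rw [Function.update_of_ne hj, Function.update_of_ne hj, Function.update_of_ne hj,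
          Function.update_of_ne hj]
        exact hT j

end Pool.Agent.H94.DS
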