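import Mathlib
import Pool.Graph.R_seed8.W185.SRG.Defs

/-!
# The `k`-dimensional Weisfeiler-Leman method on digraphs
-/

set_option autoImplicit false

namespace Pool.Agent.H94.DS

open Pool.Agent.W185.SRG (Col)

/-- The isomorphism type of a `k`-tuple of vertices of a digraph: which entries coincide and from
which entries to which entries there are arcs. -/
def isoTypeD {V : Type} (D : Digraph V) (k : ℕ) (S : Fin k → V) : Col k 0 :=
  (fun i j => S i = S j, fun i j => D.Adj (S i) (S j))

open Classical in
/-- The colour of the `k`-tuple `S` after `t` rounds of the `k`-dimensional WL method on a digraph: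
one round replaces the colour of `S` by the pair of the old colour of `S` and the multiset, over all
vertices `x`, of the families of old colours of the `k` tuples got from `S` by replacing one
coordinate by `x`. -/
noncomputable def wlD {V : Type} [Fintype V] (D : Digraph V) (k : ℕ) :
    (t : ℕ) → (Fin k → V) → Col k t
  | 0, S => isoTypeD D k S
  | t + 1, S => (wlD D k t S,
      (Finset.univ : Finset V).val.map fun x => fun i => wlD D k t (Function.update S i x))

/-- The `k`-dimensional WL method does not distinguish the digraphs `D` and `E`: some bijection
between the `k`-tuples of vertices preserves the colours of all rounds. -/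
def WLEquivalentD {V W : Type} [Fintype V] [Fintype W] (k : ℕ) (D : Digraph V) (E : Digraph W) :
    Prop :=
  ∃ ψ : (Fin k → V) ≃ (Fin k → W), ∀ (t : ℕ) (S : Fin k → V), wlD D k t S = wlD E k t (ψ S)

end Pool.Agent.H94.DS
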