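import Pool.Agent.H94.DS.WL
import Pool.Agent.H94.DS.Main
import Pool.Graph.R_pool_sql_team_seeded_3997aac3.Results.MP_128e7d_lc.StateModels

/-!
# The Weisfeiler-Leman method on directed strongly regular graphs
-/

set_option autoImplicit false

namespace Pool.Agent.H94.DS

open Pool.Agent.W185.SRG (WLEquivalent)
open Pool.Agent.NPC.DS94

/-- Transport of a strategy along isomorphisms. -/
theorem Strat.iso {V W Y Z : Type} {k : ℕ} {D : Digraph V} {E : Digraph W} {D' : Digraph Y}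
    {E' : Digraph Z} (h : Strat k D E) (φ : D'.Adj ≃r D.Adj) (ψ : E'.Adj ≃r E.Adj) (y0 : Y) :
    Strat k D' E' := by
  refine Strat.transfer h (fun _ => ()) (fun y => some (φ y)) (fun _ => ()) (fun z => some (ψ z))
    y0 ?_ ?_ ?_ ?_
  · intro y y' _ h2
    exact φ.injective (Option.some.inj h2)
  · intro y y' _ h2
    exact ψ.injective (Option.some.inj h2)
  · intro β
    refine ⟨(φ.toEquiv.trans β).trans ψ.symm.toEquiv, fun y => ⟨rfl, ?_⟩⟩
    simp
  · intro y y' z z' _ _ h1 _ _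
    rw [← φ.map_rel_iff, ← ψ.map_rel_iff]
    exact (h1 _ _ _ _ rfl rfl rfl rfl).2

theorem Strat.dbl {V W : Type} {k : ℕ} {A : SimpleGraph V} {B : SimpleGraph W} (v0 : V)
    (h : Strat k ⟨A.Adj⟩ ⟨B.Adj⟩) : Strat k (dbl A) (dbl B) := by
  refine Strat.transfer h Prod.fst (fun y => some y.2) Prod.fst (fun z => some z.2)
    (false, v0) ?_ ?_ ?_ ?_
  · intro y y' h1 h2
    exact Prod.ext h1 (Option.some.inj h2)
  · intro y y' h1 h2
    exact Prod.ext h1 (Option.some.inj h2)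
  · intro β
    exact ⟨Equiv.prodCongr (Equiv.refl _) β, fun y => ⟨rfl, rfl⟩⟩
  · intro y y' z z' _ h2 h1 _ _
    obtain ⟨h3, h4⟩ := h1 _ _ _ _ rfl rfl rfl rfl
    rw [dbl_iff, dbl_iff, h2]
    simp only at h3 h4
    rw [ne_eq, ne_eq, h3, h4]

/-- The labels of the vertices of the regular graph. -/
def labV {V : Type} : RV V → ℕ × Bool
  | .inl (c, _) => (0, c)
  | .inr (.inl (c, _)) => (1, c)
  | .inr (.inr _) => (2, false)

/-- The vertices over which the vertices of the regular graph are. -/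
def ptV {V : Type} : RV V → Option V
  | .inl (_, u) => some u
  | .inr (.inl (_, u)) => some u
  | .inr (.inr _) => none

theorem labV_inj {V : Type} (x y : RV V) (h1 : labV x = labV y) (h2 : ptV x = ptV y) : x = y := by
  rcases x with ⟨c, u⟩ | ⟨c, u⟩ | x <;> rcases y with ⟨d, v⟩ | ⟨d, v⟩ | y <;>
    simp [labV, ptV] at h1 h2 ⊢ <;> exact ⟨h1, h2⟩

theorem Strat.reg {V W : Type} {k : ℕ} {A : SimpleGraph V} {B : SimpleGraph W}
    (h : Strat k ⟨A.Adj⟩ ⟨B.Adj⟩) : Strat k ⟨(reg A).Adj⟩ ⟨(reg B).Adj⟩ := by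
  refine Strat.transfer h labV ptV labV ptV (.inr (.inr ())) labV_inj labV_inj ?_ ?_
  · intro β
    refine ⟨Equiv.sumCongr (Equiv.prodCongr (Equiv.refl _) β)
      (Equiv.sumCongr (Equiv.prodCongr (Equiv.refl _) β) (Equiv.refl _)), fun y => ?_⟩
    rcases y with ⟨d, v⟩ | ⟨d, v⟩ | y <;> exact ⟨rfl, rfl⟩
  · intro y y' z z' h1 h2 h3 h4 h5
    show (Pool.Agent.H94.DS.reg A).Adj y y' ↔ (Pool.Agent.H94.DS.reg B).Adj z z'
    rcases y with ⟨c, u⟩ | ⟨c, u⟩ | y <;> rcases z with ⟨d, v⟩ | ⟨d, v⟩ | z <;>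
      simp only [labV, Prod.mk.injEq, zero_ne_one, one_ne_zero, false_and, OfNat.zero_ne_ofNat,
        OfNat.ofNat_ne_zero, OfNat.one_ne_ofNat, OfNat.ofNat_ne_one, true_and] at h1 <;>
      rcases y' with ⟨c', u'⟩ | ⟨c', u'⟩ | y' <;> rcases z' with ⟨d', v'⟩ | ⟨d', v'⟩ | z' <;>
      simp only [labV, Prod.mk.injEq, zero_ne_one, one_ne_zero, false_and, OfNat.zero_ne_ofNat,
        OfNat.ofNat_ne_zero, OfNat.one_ne_ofNat, OfNat.ofNat_ne_one, true_and] at h2
    · obtain ⟨h6, h7⟩ := h3 u u' v v' rfl rfl rfl rfl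
      simp only at h7
      rw [reg_tt, reg_tt, h1, h2, ne_eq u, ne_eq v, h6, h7]
    · rw [reg_tp, reg_tp, h1, h2]
    · simp
    · rw [reg_pt, reg_pt, h1, h2]
    · rw [reg_pp, reg_pp, h1, h2]
    · simp
    · simp
    · simp
    · simp

theorem Strat.pad {n k : ℕ} {G H : SimpleGraph (Fin n)} (h : Strat k ⟨G.Adj⟩ ⟨H.Adj⟩) :
    Strat k ⟨(pad G).Adj⟩ ⟨(pad H).Adj⟩ := by
  let lab : Fin (n + 2) → Option ℕ := fun y => if y.val < n then none else some y.val
  let pt : Fin (n + 2) → Option (Fin n) := fun y => if h : y.val < n then some ⟨y.val, h⟩ else none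
  have hinj : ∀ y y', lab y = lab y' → pt y = pt y' → y = y' := by
    intro y y' h1 h2
    simp only [lab, pt] at h1 h2
    by_cases hy : y.val < n
    · by_cases hy' : y'.val < n
      · rw [dif_pos hy, dif_pos hy'] at h2
        exact Fin.ext (by simpa using h2)
      · rw [if_pos hy, if_neg hy'] at h1
        exact absurd h1 (by simp)
    · by_cases hy' : y'.val < n
      · rw [if_neg hy, if_pos hy'] at h1
        exact absurd h1 (by simp)
      · rw [if_neg hy, if_neg hy'] at h1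
        exact Fin.ext (by simpa using h1)
  refine Strat.transfer h lab pt lab pt ⟨n, by omega⟩ hinj hinj ?_ ?_
  · intro β
    refine ⟨(finSumFinEquiv.symm.trans (Equiv.sumCongr β (Equiv.refl (Fin 2)))).trans
      finSumFinEquiv, fun y => ?_⟩
    obtain ⟨s, rfl⟩ := finSumFinEquiv.surjective y
    rw [Equiv.trans_apply, Equiv.trans_apply, Equiv.symm_apply_apply]
    rcases s with u | c
    · rw [Equiv.sumCongr_apply, Sum.map_inl, finSumFinEquiv_apply_left, finSumFinEquiv_apply_left]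
      simp [lab, pt]
    · rw [Equiv.sumCongr_apply, Sum.map_inr, finSumFinEquiv_apply_right,
        finSumFinEquiv_apply_right]
      simp [lab, pt]
  · intro y y' z z' _ _ h3 h4 h5
    show (Pool.Agent.NPC.DS94.pad G).Adj y y' ↔ (Pool.Agent.NPC.DS94.pad H).Adj z z'
    have hp : ∀ y : Fin (n + 2), pt y = none ↔ ¬ y.val < n := by
      intro y
      simp only [pt]
      by_cases hy : y.val < n
      · rw [dif_pos hy]
        simp [hy]
      · rw [dif_neg hy]
        simp [hy]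
    rw [hp, hp, not_iff_not] at h4 h5
    by_cases hy : y.val < n
    · by_cases hy' : y'.val < n
      · have hz := h4.1 hy
        have hz' := h5.1 hy'
        have h6 := (h3 ⟨y, hy⟩ ⟨y', hy'⟩ ⟨z, hz⟩ ⟨z', hz'⟩ (dif_pos hy) (dif_pos hy')
          (dif_pos hz) (dif_pos hz')).2
        show (gN G).Adj y y' ↔ (gN H).Adj z z'
        have h7 : G.Adj ⟨y, hy⟩ ⟨y', hy'⟩ ↔ H.Adj ⟨z, hz⟩ ⟨z', hz'⟩ := h6
        rw [← gN_adj, ← gN_adj] at h7
        exact h7
      · refine iff_of_false (fun hG => hy' (gN_below G _ _ hG.symm)) (fun hH => ?_)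
        exact hy' (h5.2 (gN_below H _ _ hH.symm))
    · refine iff_of_false (fun hG => hy (gN_below G _ _ hG)) (fun hH => ?_)
      exact hy (h4.2 (gN_below H _ _ hH))

/-- The construction preserves the equivalence for the Weisfeiler-Leman method. -/
theorem wl_TT {n k : ℕ} (hn : 1 ≤ n) {G H : SimpleGraph (Fin n)} (h : WLEquivalent k G H) :
    WLEquivalentD k (TT n G) (TT n H) := by
  obtain ⟨φ⟩ := TT_iso n G
  obtain ⟨ψ⟩ := TT_iso n H
  have h1 : Strat k ⟨G.Adj⟩ ⟨H.Adj⟩ := Strat.of_wl ⟨⟨0, hn⟩⟩ (wlEquivalentD_of h)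
  have h2 := (Strat.dbl (.inr (.inr ())) h1.pad.reg).iso φ ψ ⟨0, by omega⟩
  exact h2.wl

/-- The same for all `n`. -/
theorem wl_TT' {n k : ℕ} {G H : SimpleGraph (Fin n)} (h : WLEquivalent k G H) :
    WLEquivalentD k (TT n G) (TT n H) := by
  rcases Nat.eq_zero_or_pos n with rfl | hn
  · have h1 : G = H := by
      ext i j
      exact i.elim0
    subst h1
    exact ⟨Equiv.refl _, fun t S => rfl⟩
  · exact wl_TT hn h

/-- The Weisfeiler-Leman method of linear dimension does not identify directed strongly regular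
graphs with parameters `(4 k + 2, 2 k, k, k - 1, k)`. -/
theorem wl_lower (n : ℕ) (hn : 160000000 ≤ n) :
    ∃ D E : Digraph (Fin (8 * n + 18)), HalfDSRG D ∧ HalfDSRG E ∧
      ¬ Nonempty (D.Adj ≃r E.Adj) ∧ ∀ j : ℕ, 45000000 * j ≤ n → WLEquivalentD j D E := by
  obtain ⟨G, H, h1, h2, _⟩ := Pool.Agent.Results.MP_128e7d_lc.StateModels.result n hn
  exact ⟨TT n G, TT n H, half_TT n G, half_TT n H, fun h => h1 ((TT_iso_iff G H).1 h),
    fun j hj => wl_TT (by omega) (h2 j hj)⟩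

end Pool.Agent.H94.DS
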